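import Mathlib

set_option autoImplicit false

/-! MP_947296_co: the two games as finite games on the edges of the complete graph, and the
translation between the finite games and strategies which may waste moves. -/

namespace Pool.Agent.Work.MP_947296_co.Finite

open Finset

/-- Positions of the games on the edges of `K_n` (vertex set `Fin n`): `D` is the set of
Maker's edges with the orientations `(x, y)` that she gave them, `B` is the set of Breaker's
edges (unordered pairs). The pair `e` is free if it is an edge (two different vertices) which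
nobody has claimed so far. -/
def Free {n : ℕ} (D : Finset (Fin n × Fin n)) (B : Finset (Sym2 (Fin n)))
    (e : Sym2 (Fin n)) : Prop :=
  ¬ e.IsDiag ∧ e ∉ B ∧ ∀ p ∈ D, s(p.1, p.2) ≠ e

/-- `MakerForces goal m t D B`: from the position `(D, B)`, with `m` moves left and Maker to
move if `t` is `true` (Breaker if `t` is `false`), Maker can force that at the end her directed
graph has the property `goal`. A move of Maker claims a free edge and orients it, a move of
Breaker claims a free edge. -/
def MakerForces {n : ℕ} (goal : Finset (Fin n × Fin n) → Prop) :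
    ℕ → Bool → Finset (Fin n × Fin n) → Finset (Sym2 (Fin n)) → Prop
  | 0, _, D, _ => goal D
  | m + 1, true, D, B => ∃ x y, Free D B s(x, y) ∧
      MakerForces goal m false (insert (x, y) D) B
  | m + 1, false, D, B => ∀ e, Free D B e → MakerForces goal m true D (insert e B)

/-- `BreakerForces goal m t D B`: in the same situation Breaker can force that at the end
Maker's directed graph does not have the property `goal`. -/
def BreakerForces {n : ℕ} (goal : Finset (Fin n × Fin n) → Prop) :
    ℕ → Bool → Finset (Fin n × Fin n) → Finset (Sym2 (Fin n)) → Prop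
  | 0, _, D, _ => ¬ goal D
  | m + 1, true, D, B => ∀ x y, Free D B s(x, y) →
      BreakerForces goal m false (insert (x, y) D) B
  | m + 1, false, D, B => ∃ e, Free D B e ∧ BreakerForces goal m true D (insert e B)

section

variable {n : ℕ} {goal : Finset (Fin n × Fin n) → Prop}

theorem det (m : ℕ) : ∀ (t : Bool) (D : Finset (Fin n × Fin n)) (B : Finset (Sym2 (Fin n))),
    ¬ MakerForces goal m t D B ↔ BreakerForces goal m t D B := by
  induction m with
  | zero => intro t D B; simp [MakerForces, BreakerForces]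
  | succ m ih =>
    intro t D B
    cases t with
    | true =>
      simp only [MakerForces, BreakerForces, not_exists, not_and]
      exact forall_congr' fun x => forall_congr' fun y => imp_congr_right fun _ => ih _ _ _
    | false =>
      simp only [MakerForces, BreakerForces, not_forall]
      constructor
      · rintro ⟨e, he, h⟩
        exact ⟨e, he, (ih _ _ _).1 h⟩
      · rintro ⟨e, he, h⟩
        exact ⟨e, he, (ih _ _ _).2 h⟩

open Classical in
/-- the set of the free edges -/
noncomputable def fr (D : Finset (Fin n × Fin n)) (B : Finset (Sym2 (Fin n))) :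
    Finset (Sym2 (Fin n)) := univ.filter (fun e => Free D B e)

theorem mem_fr {D : Finset (Fin n × Fin n)} {B : Finset (Sym2 (Fin n))} {e : Sym2 (Fin n)} :
    e ∈ fr D B ↔ Free D B e := by
  classical
  simp [fr]

theorem card_fr_empty : (fr (∅ : Finset (Fin n × Fin n)) ∅).card = n.choose 2 := by
  classical
  have h := Sym2.card_subtype_not_diag (α := Fin n)
  rw [Fintype.card_fin] at h
  rw [← h, Fintype.card_subtype]
  congr 1
  ext e
  simp [fr, Free]

theorem fr_insert_D {D : Finset (Fin n × Fin n)} {B : Finset (Sym2 (Fin n))} (p : Fin n × Fin n) :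
    fr (insert p D) B = (fr D B).erase s(p.1, p.2) := by
  ext e
  simp only [mem_fr, mem_erase, Free, mem_insert, forall_eq_or_imp, ne_eq]
  constructor
  · rintro ⟨h1, h2, h3, h4⟩
    exact ⟨fun h => h3 h.symm, h1, h2, h4⟩
  · rintro ⟨h3, h1, h2, h4⟩
    exact ⟨h1, h2, fun h => h3 h.symm, h4⟩

theorem fr_insert_B {D : Finset (Fin n × Fin n)} {B : Finset (Sym2 (Fin n))}
    (e' : Sym2 (Fin n)) : fr D (insert e' B) = (fr D B).erase e' := by
  ext e
  simp only [mem_fr, mem_erase, Free, mem_insert, not_or]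
  tauto

theorem free_anti {D D' : Finset (Fin n × Fin n)} {B B' : Finset (Sym2 (Fin n))}
    {e : Sym2 (Fin n)} (hD : D ⊆ D') (hB : B ⊆ B') (h : Free D' B' e) : Free D B e :=
  ⟨h.1, fun h' => h.2.1 (hB h'), fun p hp => h.2.2 p (hD hp)⟩

/-- if Maker can force the goal then the goal can be reached -/
theorem exists_goal (m : ℕ) : ∀ (t : Bool) (D : Finset (Fin n × Fin n))
    (B : Finset (Sym2 (Fin n))), (fr D B).card = m → MakerForces goal m t D B →
    ∃ D', goal D' := by
  induction m with
  | zero => intro t D B _ h; exact ⟨D, h⟩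
  | succ m ih =>
    intro t D B hc h
    cases t with
    | true =>
      obtain ⟨x, y, h1, h2⟩ := h
      refine ih false _ _ ?_ h2
      rw [fr_insert_D, card_erase_of_mem (mem_fr.2 h1), hc]
      rfl
    | false =>
      obtain ⟨e, he⟩ : (fr D B).Nonempty := by
        rw [← card_pos, hc]; exact Nat.succ_pos m
      refine ih true _ _ ?_ (h e (mem_fr.1 he))
      rw [fr_insert_B, card_erase_of_mem he, hc]
      rfl

/-! ## From a winning strategy of Maker in the finite game to the infinite game -/

section maker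

variable (goal)

open Classical in
/-- Maker's move at the position -/
noncomputable def mk (d : Fin n × Fin n) (q : Finset (Fin n × Fin n) × Finset (Sym2 (Fin n))) :
    Fin n × Fin n :=
  if h : ∃ p : Fin n × Fin n, Free q.1 q.2 s(p.1, p.2) ∧
    MakerForces goal ((fr q.1 q.2).card - 1) false (insert p q.1) q.2 then h.choose else d

open Classical in
/-- the move of Breaker as Maker sees it -/
noncomputable def rb (D : Finset (Fin n × Fin n)) (B : Finset (Sym2 (Fin n)))
    (c : Fin n × Fin n) : Sym2 (Fin n) :=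
  if Free D B s(c.1, c.2) then s(c.1, c.2) else if h : ∃ e, Free D B e then h.choose
    else s(c.1, c.2)

open Classical in
/-- one round -/
noncomputable def stp (d : Fin n × Fin n) (q : Finset (Fin n × Fin n) × Finset (Sym2 (Fin n)))
    (c : Fin n × Fin n) : Finset (Fin n × Fin n) × Finset (Sym2 (Fin n)) :=
  if fr q.1 q.2 = ∅ then q else
    (insert (mk goal d q) q.1,
      if fr (insert (mk goal d q) q.1) q.2 = ∅ then q.2 else
        insert (rb (insert (mk goal d q) q.1) q.2 c) q.2)

/-- the position before the `t`-th move of Maker -/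
noncomputable def pos (d : Fin n × Fin n) (b : ℕ → Fin n × Fin n) :
    ℕ → Finset (Fin n × Fin n) × Finset (Sym2 (Fin n))
  | 0 => (∅, ∅)
  | t + 1 => stp goal d (pos d b t) (b t)

variable {goal}

theorem pos_congr (d : Fin n × Fin n) {b b' : ℕ → Fin n × Fin n} {t : ℕ}
    (h : ∀ s < t, b s = b' s) : pos goal d b t = pos goal d b' t := by
  induction t with
  | zero => rfl
  | succ t ih =>
    simp only [pos]
    rw [ih (fun s hs => h s (Nat.lt_succ_of_lt hs)), h t (Nat.lt_succ_self t)]

theorem rb_free {D : Finset (Fin n × Fin n)} {B : Finset (Sym2 (Fin n))} (c : Fin n × Fin n)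
    (h : fr D B ≠ ∅) : Free D B (rb D B c) := by
  classical
  unfold rb
  split_ifs with h1 h2
  · exact h1
  · exact h2.choose_spec
  · exfalso
    obtain ⟨e, he⟩ := nonempty_iff_ne_empty.2 h
    exact h2 ⟨e, mem_fr.1 he⟩

theorem mk_spec (d : Fin n × Fin n) {q : Finset (Fin n × Fin n) × Finset (Sym2 (Fin n))}
    (h0 : fr q.1 q.2 ≠ ∅) (h : MakerForces goal (fr q.1 q.2).card true q.1 q.2) :
    Free q.1 q.2 s((mk goal d q).1, (mk goal d q).2) ∧
    MakerForces goal ((fr q.1 q.2).card - 1) false (insert (mk goal d q) q.1) q.2 := by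
  classical
  have hex : ∃ p : Fin n × Fin n, Free q.1 q.2 s(p.1, p.2) ∧
    MakerForces goal ((fr q.1 q.2).card - 1) false (insert p q.1) q.2 := by
    obtain ⟨m, hm⟩ : ∃ m, (fr q.1 q.2).card = m + 1 :=
      Nat.exists_eq_succ_of_ne_zero (by rw [Ne, card_eq_zero]; exact h0)
    rw [hm] at h ⊢
    obtain ⟨x, y, h1, h2⟩ := h
    exact ⟨(x, y), h1, h2⟩
  unfold mk
  rw [dif_pos hex]
  exact hex.choose_spec

theorem stp_spec (d c : Fin n × Fin n)
    {q : Finset (Fin n × Fin n) × Finset (Sym2 (Fin n))}
    (h : MakerForces goal (fr q.1 q.2).card true q.1 q.2) :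
    MakerForces goal (fr (stp goal d q c).1 (stp goal d q c).2).card true
      (stp goal d q c).1 (stp goal d q c).2 ∧
    (fr (stp goal d q c).1 (stp goal d q c).2).card ≤ (fr q.1 q.2).card - 1 ∧
    q.1 ⊆ (stp goal d q c).1 ∧ q.2 ⊆ (stp goal d q c).2 ∧
    ¬ Free (stp goal d q c).1 (stp goal d q c).2 s(c.1, c.2) ∧
    ¬ Free (stp goal d q c).1 (stp goal d q c).2 s((mk goal d q).1, (mk goal d q).2) ∧
    (∀ p ∈ (stp goal d q c).1, p ∈ q.1 ∨ (p = mk goal d q ∧ Free q.1 q.2 s(p.1, p.2))) := by
  classical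
  unfold stp
  split_ifs with h0 h1
  · refine ⟨h, ?_, Subset.refl _, Subset.refl _, ?_, ?_, fun p hp => Or.inl hp⟩
    · rw [h0]; simp
    · rw [← mem_fr, h0]; simp
    · rw [← mem_fr, h0]; simp
  · obtain ⟨h2, h3⟩ := mk_spec d h0 h
    have h4 : (fr (insert (mk goal d q) q.1) q.2).card = (fr q.1 q.2).card - 1 := by
      rw [fr_insert_D, card_erase_of_mem (mem_fr.2 h2)]
    refine ⟨?_, h4.le, subset_insert _ _, Subset.refl _, ?_, ?_, ?_⟩
    · simp only
      rw [h4]
      have h5 : (fr q.1 q.2).card - 1 = 0 := by rw [← h4, h1]; simp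
      rw [h5] at h3 ⊢
      exact h3
    · rw [← mem_fr]; simp only; rw [h1]; simp
    · rw [← mem_fr]; simp only; rw [h1]; simp
    · intro p hp
      rcases mem_insert.1 hp with hp | hp
      · right; subst hp; exact ⟨rfl, h2⟩
      · exact Or.inl hp
  · obtain ⟨h2, h3⟩ := mk_spec d h0 h
    have h4 : (fr (insert (mk goal d q) q.1) q.2).card = (fr q.1 q.2).card - 1 := by
      rw [fr_insert_D, card_erase_of_mem (mem_fr.2 h2)]
    have h5 := rb_free c h1
    have h6 : (fr (insert (mk goal d q) q.1)
        (insert (rb (insert (mk goal d q) q.1) q.2 c) q.2)).card = (fr q.1 q.2).card - 1 - 1 := by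
      rw [fr_insert_B, card_erase_of_mem (mem_fr.2 h5), h4]
    refine ⟨?_, by simp only; omega, subset_insert _ _, subset_insert _ _, ?_, ?_, ?_⟩
    · simp only
      rw [h6]
      obtain ⟨m, hm⟩ : ∃ m, (fr q.1 q.2).card - 1 = m + 1 := by
        refine Nat.exists_eq_succ_of_ne_zero ?_
        rw [← h4, Ne, card_eq_zero]; exact h1
      rw [hm] at h3 ⊢
      exact h3 _ h5
    · simp only
      intro hf
      by_cases hc : Free (insert (mk goal d q) q.1) q.2 s(c.1, c.2)
      · apply hf.2.1
        have : rb (insert (mk goal d q) q.1) q.2 c = s(c.1, c.2) := by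
          unfold rb; rw [if_pos hc]
        rw [this]
        exact mem_insert_self _ _
      · exact hc (free_anti (Subset.refl _) (subset_insert _ _) hf)
    · simp only
      intro hf
      exact hf.2.2 _ (mem_insert_self _ _) rfl
    · intro p hp
      rcases mem_insert.1 hp with hp | hp
      · right; subst hp; exact ⟨rfl, h2⟩
      · exact Or.inl hp

theorem maker_sim (hn : 0 < n) (h : MakerForces goal (n.choose 2) true ∅ ∅) :
    ∃ σ : (t : ℕ) → (Fin t → Fin n × Fin n) → Fin n × Fin n, ∀ b : ℕ → Fin n × Fin n,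
      ∃ D, goal D ∧ ∀ p ∈ D, p.1 ≠ p.2 ∧ ∃ t, σ t (fun s : Fin t => b s.val) = p ∧
        ∀ s < t, b s ≠ p ∧ b s ≠ p.swap ∧ σ s (fun r : Fin s => b r.val) ≠ p ∧
          σ s (fun r : Fin s => b r.val) ≠ p.swap := by
  classical
  set d : Fin n × Fin n := (⟨0, hn⟩, ⟨0, hn⟩) with hd
  refine ⟨fun t bs => mk goal d (pos goal d (fun s => if h : s < t then bs ⟨s, h⟩ else d) t),
    fun b => ?_⟩
  have hσ : ∀ t, mk goal d (pos goal d (fun s => if h : s < t then
      (fun s : Fin t => b s.val) ⟨s, h⟩ else d) t) = mk goal d (pos goal d b t) := by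
    intro t
    congr 1
    refine pos_congr d ?_
    intro s hs
    simp [hs]
  -- the invariant
  have hI : ∀ t, MakerForces goal (fr (pos goal d b t).1 (pos goal d b t).2).card true
      (pos goal d b t).1 (pos goal d b t).2 ∧
      (fr (pos goal d b t).1 (pos goal d b t).2).card ≤ n.choose 2 - t ∧
      (∀ s < t, ¬ Free (pos goal d b t).1 (pos goal d b t).2 s((b s).1, (b s).2) ∧
        ¬ Free (pos goal d b t).1 (pos goal d b t).2
          s((mk goal d (pos goal d b s)).1, (mk goal d (pos goal d b s)).2)) ∧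
      ∀ p ∈ (pos goal d b t).1, ∃ s < t, mk goal d (pos goal d b s) = p ∧
        Free (pos goal d b s).1 (pos goal d b s).2 s(p.1, p.2) := by
    intro t
    induction t with
    | zero =>
      refine ⟨?_, ?_, fun s hs => absurd hs (Nat.not_lt_zero s), fun p hp => ?_⟩
      · show MakerForces goal (fr (∅ : Finset (Fin n × Fin n)) ∅).card true ∅ ∅
        rw [card_fr_empty]; exact h
      · show (fr (∅ : Finset (Fin n × Fin n)) ∅).card ≤ _
        rw [card_fr_empty]; simp
      · simp [pos] at hp
    | succ t ih =>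
      obtain ⟨i1, i2, i3, i4⟩ := ih
      obtain ⟨s1, s2, s3, s4, s5, s6, s7⟩ := stp_spec d (b t) i1
      refine ⟨s1, ?_, ?_, ?_⟩
      · refine s2.trans ?_
        omega
      · intro s hs
        rcases Nat.lt_succ_iff_lt_or_eq.1 hs with hs | hs
        · exact ⟨fun hf => (i3 s hs).1 (free_anti s3 s4 hf),
            fun hf => (i3 s hs).2 (free_anti s3 s4 hf)⟩
        · subst hs
          exact ⟨s5, s6⟩
      · intro p hp
        rcases s7 p hp with h' | ⟨h', h''⟩
        · obtain ⟨s, hs, h1⟩ := i4 p h'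
          exact ⟨s, Nat.lt_succ_of_lt hs, h1⟩
        · exact ⟨t, Nat.lt_succ_self t, h'.symm, h''⟩
  obtain ⟨j1, j2, -, j4⟩ := hI (n.choose 2)
  refine ⟨(pos goal d b (n.choose 2)).1, ?_, ?_⟩
  · have : (fr (pos goal d b (n.choose 2)).1 (pos goal d b (n.choose 2)).2).card = 0 := by omega
    rw [this] at j1
    exact j1
  · intro p hp
    obtain ⟨t, -, h1, h2⟩ := j4 p hp
    refine ⟨fun h => h2.1 (by rw [Sym2.mk_isDiag_iff]; exact h), t, ?_, ?_⟩
    · simp only
      rw [hσ]; exact h1
    · intro s hs
      obtain ⟨k1, k2⟩ := (hI t).2.2.1 s hs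
      refine ⟨fun h => k1 ?_, fun h => k1 ?_, fun h => k2 ?_, fun h => k2 ?_⟩
      · rw [h]; exact h2
      · rw [h]; simpa [Sym2.eq_swap] using h2
      · simp only at h; rw [hσ] at h; rw [h]; exact h2
      · simp only at h; rw [hσ] at h; rw [h]; simpa [Sym2.eq_swap] using h2

end maker

/-! ## From a winning strategy of Breaker in the finite game to the infinite game -/

theorem out_mk {α : Type} (e : Sym2 α) : s(e.out.1, e.out.2) = e := by
  have h := Quot.out_eq e
  exact h

section breaker

variable (goal)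

open Classical in
/-- Breaker's move at the position -/
noncomputable def br (d : Fin n × Fin n) (q : Finset (Fin n × Fin n) × Finset (Sym2 (Fin n))) :
    Fin n × Fin n :=
  if h : ∃ e, Free q.1 q.2 e ∧
    BreakerForces goal ((fr q.1 q.2).card - 1) true q.1 (insert e q.2) then h.choose.out else d

open Classical in
/-- the move of Maker as Breaker sees it -/
noncomputable def am (D : Finset (Fin n × Fin n)) (B : Finset (Sym2 (Fin n)))
    (c : Fin n × Fin n) : Finset (Fin n × Fin n) :=
  if Free D B s(c.1, c.2) then insert c D else if h : ∃ e, Free D B e then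
    insert h.choose.out D else D

open Classical in
/-- the edges of Breaker after his move -/
noncomputable def ab (D : Finset (Fin n × Fin n)) (B : Finset (Sym2 (Fin n)))
    (c : Fin n × Fin n) : Finset (Sym2 (Fin n)) :=
  if Free D B s(c.1, c.2) then insert s(c.1, c.2) B else B

/-- the moves of Breaker before time `t` and the position after the `t`-th move of Maker -/
noncomputable def st (d : Fin n × Fin n) (σ : (t : ℕ) → (Fin t → Fin n × Fin n) → Fin n × Fin n) :
    (t : ℕ) → (Fin t → Fin n × Fin n) × (Finset (Fin n × Fin n) × Finset (Sym2 (Fin n)))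
  | 0 => (Fin.elim0, (am ∅ ∅ (σ 0 Fin.elim0), ∅))
  | t + 1 => (Fin.snoc (α := fun _ => Fin n × Fin n) (st d σ t).1 (br goal d (st d σ t).2),
      (am (st d σ t).2.1 (ab (st d σ t).2.1 (st d σ t).2.2 (br goal d (st d σ t).2))
        (σ (t + 1) (Fin.snoc (α := fun _ => Fin n × Fin n) (st d σ t).1
          (br goal d (st d σ t).2))),
        ab (st d σ t).2.1 (st d σ t).2.2 (br goal d (st d σ t).2)))

variable {goal}

theorem st_fst (d : Fin n × Fin n) (σ : (t : ℕ) → (Fin t → Fin n × Fin n) → Fin n × Fin n)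
    (t : ℕ) : (st goal d σ t).1 = fun s : Fin t => br goal d (st goal d σ s.val).2 := by
  induction t with
  | zero => funext s; exact s.elim0
  | succ t ih =>
    funext s
    refine Fin.lastCases ?_ (fun i => ?_) s
    · simp [st]
    · simp only [st, Fin.snoc_castSucc]
      rw [ih]
      rfl

theorem am_spec {D : Finset (Fin n × Fin n)} {B : Finset (Sym2 (Fin n))} (c : Fin n × Fin n)
    (h : BreakerForces goal (fr D B).card true D B) :
    BreakerForces goal (fr (am D B c) B).card false (am D B c) B ∧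
    (fr (am D B c) B).card ≤ (fr D B).card - 1 ∧ D ⊆ am D B c ∧
    ¬ Free (am D B c) B s(c.1, c.2) ∧ (fr D B = ∅ → am D B c = D) := by
  classical
  unfold am
  split_ifs with h1 h2
  · have h3 : (fr (insert c D) B).card = (fr D B).card - 1 := by
      rw [fr_insert_D, card_erase_of_mem (mem_fr.2 h1)]
    refine ⟨?_, h3.le, subset_insert _ _, fun hf => hf.2.2 _ (mem_insert_self _ _) rfl, ?_⟩
    · rw [h3]
      obtain ⟨m, hm⟩ : ∃ m, (fr D B).card = m + 1 :=
        Nat.exists_eq_succ_of_ne_zero (by
          rw [Ne, card_eq_zero]; exact ne_empty_of_mem (mem_fr.2 h1))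
      rw [hm] at h ⊢
      exact h _ _ h1
    · intro h0
      exact absurd (mem_fr.2 h1) (by rw [h0]; simp)
  · have h4 : s(h2.choose.out.1, h2.choose.out.2) = h2.choose := out_mk _
    have h5 : Free D B s(h2.choose.out.1, h2.choose.out.2) := by
      rw [h4]; exact h2.choose_spec
    have h3 : (fr (insert h2.choose.out D) B).card = (fr D B).card - 1 := by
      rw [fr_insert_D, card_erase_of_mem (mem_fr.2 h5)]
    refine ⟨?_, h3.le, subset_insert _ _, fun hf => h1 (free_anti (subset_insert _ _)
      (Subset.refl _) hf), ?_⟩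
    · rw [h3]
      obtain ⟨m, hm⟩ : ∃ m, (fr D B).card = m + 1 :=
        Nat.exists_eq_succ_of_ne_zero (by
          rw [Ne, card_eq_zero]; exact ne_empty_of_mem (mem_fr.2 h5))
      rw [hm] at h ⊢
      exact h _ _ h5
    · intro h0
      exact absurd (mem_fr.2 h5) (by rw [h0]; simp)
  · have h0 : fr D B = ∅ := by
      by_contra hne
      obtain ⟨e, he⟩ := nonempty_iff_ne_empty.2 hne
      exact h2 ⟨e, mem_fr.1 he⟩
    refine ⟨?_, by rw [h0]; simp, Subset.refl _, h1, fun _ => rfl⟩
    rw [h0] at h ⊢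
    exact h

theorem ab_spec (d : Fin n × Fin n) {q : Finset (Fin n × Fin n) × Finset (Sym2 (Fin n))}
    (h : BreakerForces goal (fr q.1 q.2).card false q.1 q.2) :
    BreakerForces goal (fr q.1 (ab q.1 q.2 (br goal d q))).card true q.1
      (ab q.1 q.2 (br goal d q)) ∧
    q.2 ⊆ ab q.1 q.2 (br goal d q) ∧
    (fr q.1 (ab q.1 q.2 (br goal d q))).card ≤ (fr q.1 q.2).card - 1 ∧
    (∀ e ∈ ab q.1 q.2 (br goal d q), e ∈ q.2 ∨ e = s((br goal d q).1, (br goal d q).2)) ∧
    (fr q.1 q.2 = ∅ → ab q.1 q.2 (br goal d q) = q.2) := by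
  classical
  by_cases h0 : fr q.1 q.2 = ∅
  · have h1 : ab q.1 q.2 (br goal d q) = q.2 := by
      unfold ab
      rw [if_neg]
      rw [← mem_fr, h0]
      simp
    rw [h1]
    refine ⟨?_, Subset.refl _, by rw [h0]; simp, fun e he => Or.inl he, fun _ => rfl⟩
    rw [h0] at h ⊢
    exact h
  · have hex : ∃ e, Free q.1 q.2 e ∧
        BreakerForces goal ((fr q.1 q.2).card - 1) true q.1 (insert e q.2) := by
      obtain ⟨m, hm⟩ : ∃ m, (fr q.1 q.2).card = m + 1 :=
        Nat.exists_eq_succ_of_ne_zero (by rw [Ne, card_eq_zero]; exact h0)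
      rw [hm] at h ⊢
      exact h
    have h1 : s((br goal d q).1, (br goal d q).2) = hex.choose := by
      unfold br
      rw [dif_pos hex]
      exact out_mk _
    have h2 : ab q.1 q.2 (br goal d q) = insert hex.choose q.2 := by
      unfold ab
      rw [h1, if_pos hex.choose_spec.1]
    have h3 : (fr q.1 (insert hex.choose q.2)).card = (fr q.1 q.2).card - 1 := by
      rw [fr_insert_B, card_erase_of_mem (mem_fr.2 hex.choose_spec.1)]
    rw [h2, h1, h3]
    refine ⟨hex.choose_spec.2, subset_insert _ _, le_refl _, fun e he => ?_, fun h => absurd h h0⟩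
    rcases mem_insert.1 he with he | he
    · exact Or.inr he
    · exact Or.inl he

theorem breaker_sim (hn : 0 < n) (h : BreakerForces goal (n.choose 2) true ∅ ∅)
    (σ : (t : ℕ) → (Fin t → Fin n × Fin n) → Fin n × Fin n) :
    ∃ b : ℕ → Fin n × Fin n, ∃ D, ¬ goal D ∧ ∀ t, ∀ p, σ t (fun s : Fin t => b s.val) = p →
      p.1 ≠ p.2 → (∀ s < t, b s ≠ p ∧ b s ≠ p.swap) → p ∈ D ∨ p.swap ∈ D := by
  classical
  set d : Fin n × Fin n := (⟨0, hn⟩, ⟨0, hn⟩) with hd
  set P : ℕ → Finset (Fin n × Fin n) × Finset (Sym2 (Fin n)) := fun t => (st goal d σ t).2 with hP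
  set b : ℕ → Fin n × Fin n := fun t => br goal d (P t) with hb
  have hσ : ∀ t, σ t (fun s : Fin t => b s.val) = σ t (st goal d σ t).1 := by
    intro t; rw [st_fst]
  have hP0 : P 0 = (am ∅ ∅ (σ 0 (fun s : Fin 0 => b s.val)), ∅) := by
    rw [hσ 0]; rfl
  have hPs : ∀ t, P (t + 1) = (am (P t).1 (ab (P t).1 (P t).2 (b t))
      (σ (t + 1) (fun s : Fin (t + 1) => b s.val)), ab (P t).1 (P t).2 (b t)) := by
    intro t; rw [hσ (t + 1)]; rfl
  have hI : ∀ t, BreakerForces goal (fr (P t).1 (P t).2).card false (P t).1 (P t).2 ∧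
      (fr (P t).1 (P t).2).card ≤ n.choose 2 - t ∧
      (∀ e ∈ (P t).2, ∃ s < t, e = s((b s).1, (b s).2)) ∧
      ¬ Free (P t).1 (P t).2 s((σ t (fun s : Fin t => b s.val)).1,
        (σ t (fun s : Fin t => b s.val)).2) := by
    intro t
    induction t with
    | zero =>
      have h0 : BreakerForces goal (fr (∅ : Finset (Fin n × Fin n)) ∅).card true ∅ ∅ := by
        rw [card_fr_empty]; exact h
      obtain ⟨a1, a2, a3, a4, a5⟩ := am_spec (σ 0 (fun s : Fin 0 => b s.val)) h0
      rw [hP0]
      refine ⟨a1, ?_, fun e he => by simp at he, a4⟩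
      rw [card_fr_empty] at a2
      simp only
      omega
    | succ t ih =>
      obtain ⟨i1, i2, i3, i4⟩ := ih
      obtain ⟨c1, c2, c3, c4, c5⟩ := ab_spec d i1
      obtain ⟨a1, a2, a3, a4, a5⟩ := am_spec (σ (t + 1) (fun s : Fin (t + 1) => b s.val)) c1
      rw [hPs]
      refine ⟨a1, ?_, ?_, a4⟩
      · refine a2.trans ?_
        have : (fr (P t).1 (ab (P t).1 (P t).2 (b t))).card ≤ (fr (P t).1 (P t).2).card - 1 := c3
        simp only [hb] at this ⊢
        omega
      · intro e he
        rcases c4 e he with h' | h'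
        · obtain ⟨s, hs, h1⟩ := i3 e h'
          exact ⟨s, Nat.lt_succ_of_lt hs, h1⟩
        · exact ⟨t, Nat.lt_succ_self t, h'⟩
  have hmono : ∀ t, (P t).1 ⊆ (P (t + 1)).1 ∧ (fr (P t).1 (P t).2 = ∅ →
      P (t + 1) = P t) := by
    intro t
    obtain ⟨c1, c2, c3, c4, c5⟩ := ab_spec d (hI t).1
    obtain ⟨a1, a2, a3, a4, a5⟩ := am_spec (σ (t + 1) (fun s : Fin (t + 1) => b s.val)) c1
    rw [hPs]
    refine ⟨a3, fun h0 => ?_⟩
    have h1 : ab (P t).1 (P t).2 (b t) = (P t).2 := c5 h0
    have h2 := a5 (by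
      have : ab (P t).1 (P t).2 (br goal d (P t)) = (P t).2 := h1
      rw [this]; exact h0)
    rw [Prod.ext_iff]
    exact ⟨h2, h1⟩
  have hle : ∀ s t, s ≤ t → (P s).1 ⊆ (P t).1 := by
    intro s t hst
    induction hst with
    | refl => exact Subset.refl _
    | step _ ih => exact ih.trans (hmono _).1
  have hfin : fr (P (n.choose 2)).1 (P (n.choose 2)).2 = ∅ := by
    have := (hI (n.choose 2)).2.1
    rw [← card_eq_zero]; omega
  have hconst : ∀ r, P (n.choose 2 + r) = P (n.choose 2) := by
    intro r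
    induction r with
    | zero => rfl
    | succ r ih =>
      have := (hmono (n.choose 2 + r)).2 (by rw [ih]; exact hfin)
      rw [← Nat.add_assoc, this, ih]
  have hall : ∀ t, (P t).1 ⊆ (P (n.choose 2)).1 := by
    intro t
    rcases Nat.le_total t (n.choose 2) with h' | h'
    · exact hle _ _ h'
    · obtain ⟨r, rfl⟩ := Nat.exists_eq_add_of_le h'
      rw [hconst]
  refine ⟨b, (P (n.choose 2)).1, ?_, ?_⟩
  · have := (hI (n.choose 2)).1
    rw [hfin] at this
    exact this
  · intro t p hp hne hb'
    obtain ⟨-, -, i3, i4⟩ := hI t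
    rw [hp] at i4
    have h1 : s(p.1, p.2) ∉ (P t).2 := by
      intro h'
      obtain ⟨s, hs, he⟩ := i3 _ h'
      have h2 := hb' s hs
      rw [Sym2.eq_iff] at he
      rcases he with ⟨e1, e2⟩ | ⟨e1, e2⟩
      · exact h2.1 (Prod.ext_iff.2 ⟨e1.symm, e2.symm⟩)
      · exact h2.2 (Prod.ext_iff.2 ⟨e2.symm, e1.symm⟩)
    have h2 : ∃ q ∈ (P t).1, s(q.1, q.2) = s(p.1, p.2) := by
      by_contra hcon
      push Not at hcon
      exact i4 ⟨by rw [Sym2.mk_isDiag_iff]; exact hne, h1, hcon⟩
    obtain ⟨q, hq, he⟩ := h2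
    rw [Sym2.eq_iff] at he
    rcases he with ⟨e1, e2⟩ | ⟨e1, e2⟩
    · left
      have : q = p := Prod.ext_iff.2 ⟨e1, e2⟩
      rw [← this]; exact hall t hq
    · right
      have : q = p.swap := Prod.ext_iff.2 ⟨e1, e2⟩
      rw [← this]; exact hall t hq

end breaker

end

end Pool.Agent.Work.MP_947296_co.Finite
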