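import Pool.Agent.Work.MP_947296_co.Basic

set_option autoImplicit false

namespace Pool.Agent.Work.MP_947296_co

open Finset Play

/-- finite nonnegative combinations of potentials -/
noncomputable def Pot.sum {E D : Type} [Fintype D] (c : D → ℝ) (hc : ∀ d, 0 ≤ c d)
    (Φ : D → Pot E) : Pot E where
  val H := ∑ d, c d * (Φ d).val H
  loss H x := ∑ d, c d * (Φ d).loss H x
  val_nonneg H := sum_nonneg fun d _ => mul_nonneg (hc d) ((Φ d).val_nonneg H)
  loss_nonneg H x := sum_nonneg fun d _ => mul_nonneg (hc d) ((Φ d).loss_nonneg H x)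
  loss_le H x := sum_le_sum fun d _ => mul_le_mul_of_nonneg_left ((Φ d).loss_le H x) (hc d)
  step H e f := by
    rw [← sum_sub_distrib, ← sum_add_distrib]
    refine sum_le_sum fun d _ => ?_
    have := mul_le_mul_of_nonneg_left ((Φ d).step H e f) (hc d)
    calc _ ≤ _ := this
      _ = _ := by ring

@[simp] theorem Pot.sum_val {E D : Type} [Fintype D] (c : D → ℝ) (hc : ∀ d, 0 ≤ c d)
    (Φ : D → Pot E) (H : Play E) : (Pot.sum c hc Φ).val H = ∑ d, c d * (Φ d).val H := rfl

/-- pull back a potential along a map of the moves -/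
def Pot.pull {A B : Type} (g : A → B) (Φ : Pot B) : Pot A where
  val H := Φ.val (H.map g)
  loss H x := Φ.loss (H.map g) (g x)
  val_nonneg H := Φ.val_nonneg _
  loss_nonneg H x := Φ.loss_nonneg _ _
  loss_le H x := Φ.loss_le _ _
  step H e f := Φ.step _ _ _

@[simp] theorem Pot.pull_val {A B : Type} (g : A → B) (Φ : Pot B) (H : Play A) :
    (Pot.pull g Φ).val H = Φ.val (H.map g) := rfl

/-- sum of two potentials -/
def Pot.add {E : Type} (Φ Ψ : Pot E) : Pot E where
  val H := Φ.val H + Ψ.val H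
  loss H x := Φ.loss H x + Ψ.loss H x
  val_nonneg H := add_nonneg (Φ.val_nonneg H) (Ψ.val_nonneg H)
  loss_nonneg H x := add_nonneg (Φ.loss_nonneg H x) (Ψ.loss_nonneg H x)
  loss_le H x := add_le_add (Φ.loss_le H x) (Ψ.loss_le H x)
  step H e f := by
    have h1 := Φ.step H e f
    have h2 := Ψ.step H e f
    linarith

@[simp] theorem Pot.add_val {E : Type} (Φ Ψ : Pot E) (H : Play E) :
    (Pot.add Φ Ψ).val H = Φ.val H + Ψ.val H := rfl

/-- one Maker move at most doubles a potential -/
theorem Pot.step_le_two {E : Type} (Φ : Pot E) (H : Play E) (e f : E) :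
    Φ.val (.step H e f) ≤ 2 * Φ.val H := by
  have h1 := Φ.step H e f
  have h2 := Φ.loss_nonneg H e
  have h3 := Φ.loss_le H f
  linarith

end Pool.Agent.Work.MP_947296_co
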