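import Pool.Agent.Work.MP_947296_co.Stmts

set_option autoImplicit false

/-! MP_947296_co, item NB3: the levels of the chain B (log-convexity). -/

namespace Pool.Agent.Work.MP_947296_co

open Finset Play

namespace ItemNB3

theorem qc (f ρ : ℕ → ℝ) (a b : ℕ) (hpos : ∀ j, 0 < f j)
    (hstep : ∀ j, a ≤ j → j < b → f (j + 1) = ρ j * f j)
    (hmono : ∀ j, a ≤ j → j + 1 < b → ρ j ≤ ρ (j + 1)) (hend : f b ≤ f a) :
    ∀ j, a ≤ j → j ≤ b → f j ≤ f a := by
  intro j hj
  induction j, hj using Nat.le_induction with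
  | base => intro _; exact le_rfl
  | succ j hj ih =>
    intro hjb
    by_contra hcon
    push Not at hcon
    have h1 := ih (by omega)
    have hρ : 1 < ρ j := by
      by_contra h
      push Not at h
      have h2 : ρ j * f j ≤ 1 * f j := mul_le_mul_of_nonneg_right h (hpos j).le
      rw [← hstep j hj (by omega)] at h2
      linarith
    have hall : ∀ i, j ≤ i → i < b → 1 < ρ i := by
      intro i hi
      induction i, hi using Nat.le_induction with
      | base => intro _; exact hρ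
      | succ i hi ih2 =>
        intro hib
        exact lt_of_lt_of_le (ih2 (by omega)) (hmono i (by omega) hib)
    have hinc : ∀ i, j + 1 ≤ i → i ≤ b → f (j + 1) ≤ f i := by
      intro i hi
      induction i, hi using Nat.le_induction with
      | base => intro _; exact le_rfl
      | succ i hi ih2 =>
        intro hib
        refine (ih2 (by omega)).trans ?_
        rw [hstep i (by omega) (by omega)]
        have h3 := hall i (by omega) (by omega)
        have h4 := hpos i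
        nlinarith
    have h5 := hinc b hjb le_rfl
    linarith

theorem sq_le_two_pow {u : ℕ} (hu : 30 ≤ u) : u ^ 2 ≤ 2 ^ u := by
  induction u, hu using Nat.le_induction with
  | base => norm_num
  | succ u hu ih =>
    rw [pow_succ 2 u]
    nlinarith

/-- exponent inequality -/
theorem expo {u U k : ℕ} (hu : 30 ≤ u) (hU : u ^ 2 ≤ U) (hk : k + 2 * u + 9 = 40 * U) :
    20 * U * (10 * u) + (k - 10 * u).choose 2 + 3 * u * (k - 10 * u - (3 * u + 24))
      + (u + 6) * (k - (3 * u + 24)) ≤ 20 * U * (k - (3 * u + 24)) + (3 * u + 24).choose 2 := by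
  have hk1 : 20 * u ^ 2 ≤ k := by nlinarith
  have hk2 : 13 * u + 24 ≤ k := by nlinarith
  obtain ⟨b, hb⟩ : ∃ b, k = b + 10 * u := ⟨k - 10 * u, by omega⟩
  obtain ⟨c, hc⟩ : ∃ c, b = c + (3 * u + 24) := ⟨b - (3 * u + 24), by omega⟩
  have e1 : k - 10 * u = b := by omega
  have e2 : b - (3 * u + 24) = c := by omega
  have e3 : k - (3 * u + 24) = c + 10 * u := by omega
  rw [e1, e2, e3]
  have hb1 : b.choose 2 * 2 = b * (b - 1) := by
    rw [Nat.choose_two_right]
    exact Nat.div_mul_cancel (Nat.even_mul_pred_self b).two_dvd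
  have ha1 : (3 * u + 24).choose 2 * 2 = (3 * u + 24) * (3 * u + 24 - 1) := by
    rw [Nat.choose_two_right]
    exact Nat.div_mul_cancel (Nat.even_mul_pred_self _).two_dvd
  have hb2 : b - 1 = c + 3 * u + 23 := by omega
  have ha2 : 3 * u + 24 - 1 = 3 * u + 23 := by omega
  rw [hb2] at hb1
  rw [ha2] at ha1
  have hkc : k = c + 13 * u + 24 := by omega
  have hUc : 40 * U = c + 15 * u + 33 := by omega
  subst hc
  zify at *
  nlinarith

/-- the function which is compared -/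
noncomputable def f (u k n j : ℕ) : ℝ :=
  (n : ℝ) ^ (k - j) / ((k - j).factorial : ℝ) * 2 ^ (j.choose 2) * 2 ^ (3 * u * (j - (3 * u + 24)))

noncomputable def rho (u k n j : ℕ) : ℝ := 2 ^ (3 * u) * ((k - j : ℕ) : ℝ) * 2 ^ j / n

theorem f_pos {u k n : ℕ} (hn : 1 ≤ n) (j : ℕ) : 0 < f u k n j := by
  have : (0 : ℝ) < n := by exact_mod_cast hn
  unfold f
  positivity

theorem f_step {u k n : ℕ} (hn : 1 ≤ n) {j : ℕ} (hj : 3 * u + 24 ≤ j) (hjk : j < k) :
    f u k n (j + 1) = rho u k n j * f u k n j := by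
  have hn' : (n : ℝ) ≠ 0 := by
    have : (0 : ℝ) < n := by exact_mod_cast hn
    exact this.ne'
  obtain ⟨m, hm⟩ : ∃ m, k - j = m + 1 := ⟨k - j - 1, by omega⟩
  have h1 : k - (j + 1) = m := by omega
  have h2 : (j + 1).choose 2 = j + j.choose 2 := by
    rw [Nat.choose_succ_succ' j 1, Nat.choose_one_right]
  have h3 : 3 * u * (j + 1 - (3 * u + 24)) = 3 * u + 3 * u * (j - (3 * u + 24)) := by
    have : j + 1 - (3 * u + 24) = 1 + (j - (3 * u + 24)) := by omega
    rw [this]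
    ring
  have hf : (m.factorial : ℝ) ≠ 0 := by positivity
  have hm1 : ((m : ℝ) + 1) ≠ 0 := by positivity
  unfold f rho
  rw [hm, h1, h2, h3, Nat.factorial_succ, pow_add, pow_add, pow_succ (n : ℝ) m]
  push_cast
  field_simp

theorem rho_mono {u k n : ℕ} (hn : 1 ≤ n) {j : ℕ} (hjk : j + 2 ≤ k) :
    rho u k n j ≤ rho u k n (j + 1) := by
  have hn' : (0 : ℝ) < n := by exact_mod_cast hn
  obtain ⟨m, hm⟩ : ∃ m, k - j = m + 2 := ⟨k - j - 2, by omega⟩
  have h1 : k - (j + 1) = m + 1 := by omega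
  unfold rho
  rw [hm, h1, pow_succ (2 : ℝ) j]
  apply div_le_div_of_nonneg_right _ hn'.le
  have h2 : (0 : ℝ) < 2 ^ (3 * u) := by positivity
  have h3 : (0 : ℝ) < 2 ^ j := by positivity
  have h4 : (0 : ℝ) ≤ m := Nat.cast_nonneg m
  have h5 : (0 : ℝ) < 2 ^ (3 * u) * 2 ^ j := by positivity
  push_cast
  nlinarith [mul_nonneg h5.le h4]

theorem f_end {u U k n : ℕ} (hu : 30 ≤ u) (hU : U = 2 ^ u) (hk : k + 2 * u + 9 = 40 * U)
    (hn : n = 2 ^ (20 * U)) : f u k n (k - 10 * u) ≤ f u k n (3 * u + 24) := by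
  have hU2 : u ^ 2 ≤ U := by rw [hU]; exact sq_le_two_pow hu
  have hk2 : 13 * u + 24 ≤ k := by nlinarith
  have h0 := expo hu hU2 hk
  have e1 : k - (k - 10 * u) = 10 * u := by omega
  have hKf : ((k - (3 * u + 24)).factorial : ℝ) ≤ 2 ^ ((u + 6) * (k - (3 * u + 24))) := by
    have h1 : (k - (3 * u + 24)).factorial ≤ (k - (3 * u + 24)) ^ (k - (3 * u + 24)) :=
      Nat.factorial_le_pow _
    have h2 : k - (3 * u + 24) ≤ 2 ^ (u + 6) := by
      rw [pow_add, ← hU]
      omega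
    have h3 : (k - (3 * u + 24)).factorial ≤ (2 ^ (u + 6)) ^ (k - (3 * u + 24)) :=
      h1.trans (Nat.pow_le_pow_left h2 _)
    rw [← pow_mul] at h3
    exact_mod_cast h3
  have h10 : (1 : ℝ) ≤ ((10 * u).factorial : ℝ) := by
    exact_mod_cast Nat.one_le_iff_ne_zero.2 (Nat.factorial_ne_zero _)
  have hKpos : (0 : ℝ) < ((k - (3 * u + 24)).factorial : ℝ) := by positivity
  have hnr : (n : ℝ) = 2 ^ (20 * U) := by rw [hn]; push_cast; rfl
  unfold f
  rw [e1, Nat.sub_self, Nat.mul_zero, pow_zero, mul_one]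
  have hL : (n : ℝ) ^ (10 * u) / ((10 * u).factorial : ℝ) * 2 ^ ((k - 10 * u).choose 2)
      * 2 ^ (3 * u * (k - 10 * u - (3 * u + 24)))
      ≤ 2 ^ (20 * U * (10 * u) + (k - 10 * u).choose 2
        + 3 * u * (k - 10 * u - (3 * u + 24))) := by
    have h4 : (n : ℝ) ^ (10 * u) / ((10 * u).factorial : ℝ) ≤ 2 ^ (20 * U * (10 * u)) := by
      rw [hnr, ← pow_mul]
      exact div_le_self (by positivity) h10
    rw [pow_add, pow_add]
    gcongr
  refine hL.trans ?_
  have hR : (2 : ℝ) ^ (20 * U * (k - (3 * u + 24)) + (3 * u + 24).choose 2)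
      / 2 ^ ((u + 6) * (k - (3 * u + 24)))
      ≤ (n : ℝ) ^ (k - (3 * u + 24)) / ((k - (3 * u + 24)).factorial : ℝ)
        * 2 ^ ((3 * u + 24).choose 2) := by
    rw [hnr, ← pow_mul, pow_add, div_mul_eq_mul_div]
    gcongr
  refine le_trans ?_ hR
  rw [le_div_iff₀ (by positivity), ← pow_add]
  exact pow_le_pow_right₀ (by norm_num) h0

theorem half_pow_sub {x y : ℕ} (h : y ≤ x) : (1 / 2 : ℝ) ^ (x - y) = (1 / 2) ^ x * 2 ^ y := by
  obtain ⟨z, rfl⟩ := Nat.exists_eq_add_of_le h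
  rw [Nat.add_sub_cancel_left, pow_add]
  have : (1 / 2 : ℝ) ^ y * 2 ^ y = 1 := by rw [← mul_pow]; norm_num
  calc (1 / 2 : ℝ) ^ z = (1 / 2 : ℝ) ^ z * ((1 / 2 : ℝ) ^ y * 2 ^ y) := by rw [this, mul_one]
    _ = _ := by ring

end ItemNB3

open ItemNB3 in
theorem numB3 : NumB3 := by
  unfold NumB3
  filter_upwards [Filter.eventually_ge_atTop 30] with u hu j hj
  rw [mem_Ico] at hj
  have hw : pw u + 6 = 3 * u + 24 := by unfold pw; omega
  have hU2 : u ^ 2 ≤ 2 ^ u := sq_le_two_pow hu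
  have hk : pk u + 2 * u + 9 = 40 * 2 ^ u := by
    unfold pk
    have : u ≤ u ^ 2 := by nlinarith
    omega
  have hn1 : 1 ≤ pn u := Nat.one_le_two_pow
  have hk2 : 13 * u + 24 ≤ pk u := by nlinarith
  unfold thrB
  rw [hw] at hj ⊢
  generalize hkk : pk u = k at *
  have hend : f u k (pn u) (k - 10 * u) ≤ f u k (pn u) (3 * u + 24) := f_end hu rfl hk rfl
  have hmain : f u k (pn u) j ≤ f u k (pn u) (3 * u + 24) :=
    qc (f u k (pn u)) (rho u k (pn u)) (3 * u + 24) (k - 10 * u) (f_pos hn1)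
      (fun i h1 h2 => f_step hn1 h1 (by omega)) (fun i h1 h2 => rho_mono hn1 (by omega)) hend
      j hj.1 hj.2.le
  have hck : j.choose 2 ≤ k.choose 2 := Nat.choose_le_choose 2 (by omega)
  have hcw : (3 * u + 24).choose 2 ≤ k.choose 2 := Nat.choose_le_choose 2 (by omega)
  rw [half_pow_sub hck, half_pow_sub hcw]
  have hch : ((pn u).choose (k - j) : ℝ) ≤ (pn u : ℝ) ^ (k - j) / ((k - j).factorial : ℝ) :=
    Nat.choose_le_pow_div (k - j) (pn u)
  have hH : (0 : ℝ) < (1 / 2 : ℝ) ^ (k.choose 2) := by positivity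
  have hD : (0 : ℝ) < (2 : ℝ) ^ (3 * u * (j - (3 * u + 24))) := by positivity
  have hD2 : (1 / 2 : ℝ) ^ (3 * u * (j - (3 * u + 24))) * 2 ^ (3 * u * (j - (3 * u + 24))) = 1 := by
    rw [← mul_pow]; norm_num
  have h1 : ((pn u).choose (k - j) : ℝ) * 2 ^ (j.choose 2) * 2 ^ (3 * u * (j - (3 * u + 24)))
      ≤ (pn u : ℝ) ^ (k - (3 * u + 24)) / ((k - (3 * u + 24)).factorial : ℝ)
        * 2 ^ ((3 * u + 24).choose 2) := by
    refine le_trans ?_ (hmain.trans (le_of_eq ?_))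
    · unfold f
      gcongr
    · unfold f
      rw [Nat.sub_self, Nat.mul_zero, pow_zero, mul_one]
  have h2 := mul_le_mul_of_nonneg_left h1 (mul_pos (mul_pos (pow_pos (two_pos : (0 : ℝ) < 2) (2 ^ u)) hH)
    (pow_pos (half_pos (one_pos : (0 : ℝ) < 1)) (3 * u * (j - (3 * u + 24))))).le
  calc (2 : ℝ) ^ (2 ^ u) * (((pn u).choose (k - j) : ℝ) * ((1 / 2 : ℝ) ^ (k.choose 2) * 2 ^ (j.choose 2)))
      = 2 ^ (2 ^ u) * (((pn u).choose (k - j) : ℝ) * ((1 / 2 : ℝ) ^ (k.choose 2) * 2 ^ (j.choose 2)))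
        * ((1 / 2 : ℝ) ^ (3 * u * (j - (3 * u + 24))) * 2 ^ (3 * u * (j - (3 * u + 24)))) := by
        rw [hD2, mul_one]
    _ = 2 ^ (2 ^ u) * (1 / 2 : ℝ) ^ (k.choose 2) * (1 / 2 : ℝ) ^ (3 * u * (j - (3 * u + 24)))
        * (((pn u).choose (k - j) : ℝ) * 2 ^ (j.choose 2) * 2 ^ (3 * u * (j - (3 * u + 24)))) := by
        ring
    _ ≤ _ := h2
    _ = _ := by ring

end Pool.Agent.Work.MP_947296_co
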