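import Pool.Agent.Work.MP_947296_co.Stmts
import Pool.Agent.Work.MP_947296_co.PotOps

set_option autoImplicit false

namespace Pool.Agent.Work.MP_947296_co

open Finset Play

namespace ItemB2

/-- the number of the sets of size `k` containing a given set of size `j` -/
theorem card_super {n k j : ℕ} (J : Finset (Fin n)) (hJ : J.card = j) :
    ((powersetCard k (univ : Finset (Fin n))).filter (fun S => J ⊆ S)).card
      ≤ n.choose (k - j) := by
  have h1 : ((powersetCard k (univ : Finset (Fin n))).filter (fun S => J ⊆ S)).card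
      ≤ (powersetCard (k - j) (univ : Finset (Fin n))).card := by
    refine Finset.card_le_card_of_injOn (fun S => S \ J) ?_ ?_
    · intro S hS
      rw [Finset.mem_coe, mem_filter, mem_powersetCard] at hS
      rw [Finset.mem_coe, mem_powersetCard]
      refine ⟨subset_univ _, ?_⟩
      have h := Finset.card_sdiff_of_subset hS.2
      simp only
      rw [h, hS.1.2, hJ]
    · intro S hS T hT hST
      rw [Finset.mem_coe, mem_filter] at hS hT
      have h2 : S \ J = T \ J := hST
      rw [← Finset.sdiff_union_of_subset hS.2, ← Finset.sdiff_union_of_subset hT.2, h2]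
  rw [card_powersetCard, card_univ, Fintype.card_fin] at h1
  exact h1

open Classical in
theorem card_MS {n k b j : ℕ} (H : Play (Sym2 (Fin n))) (J : Finset (Fin n)) (hJ : J.card = j) :
    (MS k b H J).card ≤ n.choose (k - j) := by
  refine le_trans (card_le_card ?_) (card_super (k := k) J hJ)
  intro S hS
  have hS' := Finset.mem_filter.1 (show S ∈ (powersetCard k univ).filter
    (fun S => J ⊆ S ∧ Closed (Ed S) b H) from hS)
  exact Finset.mem_filter.2 ⟨hS'.1, hS'.2.1⟩

/-- the zero potential -/
def zero (E : Type) : Pot E where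
  val _ := 0
  loss _ _ := 0
  val_nonneg _ := le_rfl
  loss_nonneg _ _ := le_rfl
  loss_le _ _ := le_rfl
  step _ _ _ := by simp

end ItemB2

open ItemB2 in
theorem chainB (b1 : LevelB) : ChainB := by
  intro n k b j0 j1 p Lam P eps thr hp h01 h1k hthr hstep hbase hLam hP hsum
  -- induct on the length of the chain
  obtain ⟨l, rfl⟩ := Nat.exists_eq_add_of_le h01
  clear h01
  induction l generalizing j0 eps with
  | zero =>
    refine ⟨zero _, fun f => ?_, ?_⟩
    · have h : (zero (Sym2 (Fin n))).val (.init f) = 0 := rfl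
      rw [h]
      simpa using hsum
    · intro H _ J hJ
      refine le_trans ?_ hbase
      have h := card_MS (k := k) (b := b) H J hJ
      have h' : ((MS k b H J).card : ℝ) ≤ (n.choose (k - (j0 + 0)) : ℝ) := by
        exact_mod_cast h
      exact mul_le_mul_of_nonneg_right h' (by positivity)
  | succ l ih =>
    set a : ℕ → ℝ := fun j => (n.choose j : ℝ) * (2 * (2 * 2 ^ Lam *
      ((b + 1) * (n.choose (k - j)) * (1 / 2 : ℝ) ^ (k.choose 2 - j.choose 2)) ^ p) /
        thr j ^ p) with ha
    have hsplit : ∑ j ∈ Ico j0 (j0 + (l + 1)), a j = a j0 + ∑ j ∈ Ico (j0 + 1) (j0 + 1 + l), a j := by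
      have h := Finset.sum_eq_sum_Ico_succ_bot (a := j0) (b := j0 + (l + 1)) (by omega) a
      rw [h]
      have h2 : j0 + (l + 1) = j0 + 1 + l := by omega
      rw [h2]
    have heq : j0 + 1 + l = j0 + (l + 1) := by omega
    obtain ⟨Φ, hΦ1, hΦ2⟩ := b1 n k b j0 p Lam (thr j0) (a j0) hp (by omega) (hthr j0) le_rfl
    obtain ⟨Ψ, hΨ1, hΨ2⟩ := ih (j0 + 1) (∑ j ∈ Ico (j0 + 1) (j0 + 1 + l), a j)
      (by omega) (fun j hj hj' => hstep j (by omega) (by omega)) (by rw [heq]; exact hbase) le_rfl
    refine ⟨Pot.add Φ Ψ, fun f => ?_, ?_⟩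
    · rw [Pot.add_val]
      refine le_trans (add_le_add (hΦ1 f) (hΨ1 f)) ?_
      rw [← hsplit]
      exact hsum
    · intro H hH J hJ
      rw [Pot.add_val] at hH
      have h1 := Φ.val_nonneg H
      have h2 := Ψ.val_nonneg H
      refine hΦ2 H (by linarith) J hJ (thr (j0 + 1)) ?_ ?_
      · intro x hx
        exact hΨ2 H (by linarith) (insert x J) (by rw [card_insert_of_notMem hx, hJ])
      · calc (p : ℝ) ^ 2 * (k.choose 2) * thr (j0 + 1)
            ≤ Lam * P * thr (j0 + 1) := mul_le_mul_of_nonneg_right hLam (hthr _).le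
          _ = Lam * (thr (j0 + 1) * P) := by ring
          _ ≤ Lam * thr j0 := mul_le_mul_of_nonneg_left (hstep j0 le_rfl (by omega))
              (Nat.cast_nonneg _)

end Pool.Agent.Work.MP_947296_co
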