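import Pool.Agent.Work.MP_947296_co.Bd.B01
import Pool.Agent.Work.MP_947296_co.ItemB2
import Pool.Agent.Work.MP_947296_co.Bd.B03
import Pool.Agent.Work.MP_947296_co.Bd.B02
import Pool.Agent.Work.MP_947296_co.ItemNB3

set_option autoImplicit false

namespace Pool.Agent.Work.MP_947296_co

theorem all :
  ∀ N : ℕ, ∃ n : ℕ, N ≤ n ∧ ∃ k : ℕ,
    (∃ σ : (t : ℕ) → (Fin t → Fin n × Fin n) → Fin n × Fin n,
      ∀ b : ℕ → Fin n × Fin n,
      ∃ f : Fin k → Fin n, Function.Injective f ∧ ∀ i j : Fin k, i ≠ j →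
        ∃ t : ℕ,
          (σ t (fun s : Fin t => b s.val) = (f i, f j) ∨
            σ t (fun s : Fin t => b s.val) = (f j, f i)) ∧
          ∀ s : ℕ, s < t → (b s ≠ (f i, f j) ∧ b s ≠ (f j, f i))) ∧
    ∃ T : Fin k → Fin k → Prop, (∀ i, ¬ T i i) ∧ (∀ i j, i ≠ j → (T i j ↔ ¬ T j i)) ∧
      ¬ ∃ σ : (t : ℕ) → (Fin t → Fin n × Fin n) → Fin n × Fin n,
        ∀ b : ℕ → Fin n × Fin n,
        ∃ f : Fin k → Fin n, Function.Injective f ∧ ∀ i j : Fin k, T i j →
          ∃ t : ℕ, σ t (fun s : Fin t => b s.val) = (f i, f j) ∧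
            ∀ s : ℕ, s < t →
              (b s ≠ (f i, f j) ∧ b s ≠ (f j, f i) ∧
                σ s (fun r : Fin s => b r.val) ≠ (f i, f j) ∧
                σ s (fun r : Fin s => b r.val) ≠ (f j, f i)) := by
  have t6 := famPot tokStep tokInit tokClosed tupSum tupMany
  have a3 := capPot (rootPot bvStep)
  have b2 := chainB (levelB t6)
  have c8 := levelC t6 (itemSum (nearTransversal transversal)) stamps (cappedAct omEq)
    (itemClosed omEq)
  have hcore := core a3 b2 c8 numBasic numA numB1 numB2 (numB4 numB3) numC1 numC2 numC3 numC4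
  exact frozen hcore tourExists (frameCount (frame arcsFacts blockFew)) (esStage bvStep) unroll
    enterQT (copyQT arcsFacts) numBasic numF (makerClique (makerAbs makerRound)) numM1 numM2

end Pool.Agent.Work.MP_947296_co
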