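import Pool.Agent.Work.MP_947296_co.Defs

set_option autoImplicit false

namespace Pool.Agent.Work.MP_947296_co

open Finset

namespace Play

variable {E : Type}

theorem Pre.trans {H₁ H₂ H₃ : Play E} (h : Pre H₁ H₂) (h' : Pre H₂ H₃) : Pre H₁ H₃ := by
  induction h' with
  | refl => exact h
  | step e f _ ih => exact .step e f ih

theorem pre_init {H : Play E} {f : E} (h : Pre H (.init f)) : H = .init f := by
  cases h; rfl

theorem pre_step {H K : Play E} {e f : E} (h : Pre K (.step H e f)) :
    K = .step H e f ∨ Pre K H := by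
  cases h with
  | refl => exact Or.inl rfl
  | step _ _ h => exact Or.inr h

theorem pre_step_iff {H K : Play E} {e f : E} :
    Pre K (.step H e f) ↔ K = .step H e f ∨ Pre K H := by
  refine ⟨pre_step, ?_⟩
  rintro (h | h)
  · rw [h]; exact .refl _
  · exact .step e f h

/-- length of a play -/
def len : Play E → ℕ
  | .init _ => 0
  | .step H _ _ => len H + 1

theorem Pre.len_le {H K : Play E} (h : Pre H K) : H.len ≤ K.len := by
  induction h with
  | refl => exact le_rfl
  | step e f _ ih => exact ih.trans (Nat.le_succ _)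

theorem Pre.antisymm {H K : Play E} (h : Pre H K) (h' : Pre K H) : H = K := by
  cases h with
  | refl => rfl
  | step e f h =>
    have h1 := h.len_le
    have h2 := h'.len_le
    simp only [len] at h2
    omega

/-- initial parts of a play are linearly ordered -/
theorem Pre.total {H K L : Play E} (h : Pre H L) (h' : Pre K L) : Pre H K ∨ Pre K H := by
  induction L with
  | init f => rw [pre_init h, pre_init h']; exact Or.inl (.refl _)
  | step L e f ih =>
    rcases pre_step h with h | h
    · rcases pre_step h' with h' | h'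
      · rw [h, h']; exact Or.inl (.refl _)
      · rw [h]; exact Or.inr (.step e f h')
    · rcases pre_step h' with h' | h'
      · rw [h']; exact Or.inl (.step e f h)
      · exact ih h h'

/-- if `P` holds at some time then there is a first time -/
theorem exists_first {P : Play E → Prop} {H : Play E} (h : ∃ H', Pre H' H ∧ P H') :
    ∃ H', Pre H' H ∧ First P H' := by
  induction H with
  | init f =>
    obtain ⟨H', h1, h2⟩ := h
    rw [pre_init h1] at h2
    exact ⟨_, .refl _, h2, fun K hK _ => pre_init hK⟩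
  | step H e f ih =>
    by_cases h0 : ∃ H', Pre H' H ∧ P H'
    · obtain ⟨H', h1, h2⟩ := ih h0
      exact ⟨H', .step e f h1, h2⟩
    · obtain ⟨H', h1, h2⟩ := h
      rcases pre_step h1 with h1 | h1
      · rw [h1] at h2
        refine ⟨_, .refl _, h2, fun K hK hP => ?_⟩
        rcases pre_step hK with hK | hK
        · exact hK
        · exact absurd ⟨K, hK, hP⟩ h0
      · exact absurd ⟨H', h1, h2⟩ h0

theorem map_pre {A B : Type} (g : A → B) {H K : Play A} (h : Pre H K) :
    Pre (H.map g) (K.map g) := by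
  induction h with
  | refl => exact .refl _
  | step e f _ ih => exact .step _ _ ih

theorem exists_pre_of_map {A B : Type} (g : A → B) {H : Play A} {K : Play B}
    (h : Pre K (H.map g)) : ∃ H', Pre H' H ∧ H'.map g = K := by
  induction H with
  | init f => exact ⟨_, .refl _, (pre_init h).symm⟩
  | step H e f ih =>
    rcases pre_step h with h | h
    · exact ⟨_, .refl _, h.symm⟩
    · obtain ⟨H', h1, h2⟩ := ih h
      exact ⟨H', .step e f h1, h2⟩

variable [DecidableEq E]

@[simp] theorem M_init (f : E) : (Play.init f).M = {f} := rfl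
@[simp] theorem B_init (f : E) : (Play.init f).B = ∅ := rfl

theorem B_step (H : Play E) (e f : E) :
    (Play.step H e f).B = if e ∈ H.M then H.B else insert e H.B := rfl

theorem M_step (H : Play E) (e f : E) :
    (Play.step H e f).M = if f ∈ (Play.step H e f).B then H.M else insert f H.M := rfl

theorem mem_B_step {H : Play E} {e f x : E} :
    x ∈ (Play.step H e f).B ↔ x ∈ H.B ∨ (x = e ∧ e ∉ H.M) := by
  rw [B_step]
  split_ifs with h
  · simp [h]
  · simp [h, or_comm]

theorem mem_M_step {H : Play E} {e f x : E} :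
    x ∈ (Play.step H e f).M ↔ x ∈ H.M ∨ (x = f ∧ f ∉ (Play.step H e f).B) := by
  rw [M_step]
  split_ifs with h
  · simp [h]
  · simp [h, or_comm]

theorem disj (H : Play E) : Disjoint H.M H.B := by
  induction H with
  | init f => simp
  | step H e f ih =>
    rw [Finset.disjoint_left] at ih ⊢
    intro x hx hx'
    rw [mem_M_step] at hx
    rcases hx with hx | ⟨rfl, hx⟩
    · rw [mem_B_step] at hx'
      rcases hx' with hx' | ⟨rfl, hx'⟩
      · exact ih hx hx'
      · exact hx' hx
    · exact hx hx'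

theorem mem_cl {H : Play E} {x : E} : x ∈ H.cl ↔ x ∈ H.M ∨ x ∈ H.B := by
  simp [cl]

theorem mem_cl_step {H : Play E} {e f x : E} :
    x ∈ (Play.step H e f).cl ↔ x ∈ H.cl ∨ x = e ∨ x = f := by
  simp only [mem_cl, mem_M_step, mem_B_step]
  constructor
  · rintro ((h | ⟨h, _⟩) | (h | ⟨h, _⟩)) <;> simp [h]
  · rintro ((h | h) | h | h)
    · simp [h]
    · simp [h]
    · subst h
      by_cases hx : x ∈ H.M
      · simp [hx]
      · exact Or.inr (Or.inr ⟨rfl, hx⟩)
    · subst h
      by_cases hx : x ∈ H.B ∨ (x = e ∧ e ∉ H.M)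
      · exact Or.inr hx
      · exact Or.inl (Or.inr ⟨rfl, hx⟩)

theorem cl_step (H : Play E) (e f : E) :
    (Play.step H e f).cl = insert e (insert f H.cl) := by
  ext x
  rw [mem_cl_step]
  simp only [mem_insert]
  tauto

@[simp] theorem cl_init (f : E) : (Play.init f).cl = {f} := by simp [cl]

theorem M_sub_step (H : Play E) (e f : E) : H.M ⊆ (Play.step H e f).M := fun x hx =>
  mem_M_step.2 (Or.inl hx)

theorem B_sub_step (H : Play E) (e f : E) : H.B ⊆ (Play.step H e f).B := fun x hx =>
  mem_B_step.2 (Or.inl hx)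

theorem cl_sub_step (H : Play E) (e f : E) : H.cl ⊆ (Play.step H e f).cl := fun x hx =>
  mem_cl_step.2 (Or.inl hx)

theorem Pre.M_sub {H K : Play E} (h : Pre H K) : H.M ⊆ K.M := by
  induction h with
  | refl => exact Subset.refl _
  | step e f _ ih => exact ih.trans (M_sub_step _ _ _)

theorem Pre.B_sub {H K : Play E} (h : Pre H K) : H.B ⊆ K.B := by
  induction h with
  | refl => exact Subset.refl _
  | step e f _ ih => exact ih.trans (B_sub_step _ _ _)

theorem Pre.cl_sub {H K : Play E} (h : Pre H K) : H.cl ⊆ K.cl := by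
  induction h with
  | refl => exact Subset.refl _
  | step e f _ ih => exact ih.trans (cl_sub_step _ _ _)

/-- an edge claimed before keeps its owner -/
theorem Pre.mem_M {H K : Play E} (h : Pre H K) {x : E} (hx : x ∈ H.cl) :
    x ∈ K.M ↔ x ∈ H.M := by
  refine ⟨fun hM => ?_, fun hM => h.M_sub hM⟩
  rcases mem_cl.1 hx with hx | hx
  · exact hx
  · exact absurd (h.B_sub hx) (Finset.disjoint_left.1 (disj K) hM)

theorem Pre.mem_B {H K : Play E} (h : Pre H K) {x : E} (hx : x ∈ H.cl) :
    x ∈ K.B ↔ x ∈ H.B := by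
  refine ⟨fun hB => ?_, fun hB => h.B_sub hB⟩
  rcases mem_cl.1 hx with hx | hx
  · exact absurd hB (Finset.disjoint_left.1 (disj K) (h.M_sub hx))
  · exact hx

theorem Closed.mono {I : Finset E} {β : ℕ} {H K : Play E} (h : Pre H K) (hc : Closed I β H) :
    Closed I β K := by
  obtain ⟨H', h1, h2⟩ := hc
  exact ⟨H', h1.trans h, h2⟩

theorem closed_step {I : Finset E} {β : ℕ} {H : Play E} {e f : E} :
    Closed I β (.step H e f) ↔ Closed I β H ∨ Cond I β (.step H e f) := by
  constructor
  · rintro ⟨H', h1, h2⟩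
    rcases pre_step h1 with h1 | h1
    · rw [h1] at h2; exact Or.inr h2
    · exact Or.inl ⟨H', h1, h2⟩
  · rintro (h | h)
    · exact h.mono (.step e f (.refl _))
    · exact ⟨_, .refl _, h⟩

/-- without an edge of Breaker the unclaimed edges are those not owned by Maker -/
theorem sdiff_cl_eq {I : Finset E} {H : Play E} (h : Disjoint H.B I) : I \ H.cl = I \ H.M := by
  ext x
  simp only [mem_sdiff, mem_cl, not_or]
  constructor
  · rintro ⟨h1, h2, _⟩; exact ⟨h1, h2⟩
  · rintro ⟨h1, h2⟩; exact ⟨h1, h2, fun h3 => Finset.disjoint_left.1 h h3 h1⟩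

end Play

section board

variable {n : ℕ}

theorem mem_Ed {S : Finset (Fin n)} {x y : Fin n} : s(x, y) ∈ Ed S ↔ x ∈ S ∧ y ∈ S ∧ x ≠ y := by
  simp only [Ed, mem_image, mem_offDiag, Prod.exists, Sym2.eq_iff]
  constructor
  · rintro ⟨a, b, ⟨ha, hb, hab⟩, (⟨rfl, rfl⟩ | ⟨rfl, rfl⟩)⟩
    · exact ⟨ha, hb, hab⟩
    · exact ⟨hb, ha, hab.symm⟩
  · rintro ⟨hx, hy, hxy⟩
    exact ⟨x, y, ⟨hx, hy, hxy⟩, Or.inl ⟨rfl, rfl⟩⟩

theorem card_Ed (S : Finset (Fin n)) : (Ed S).card = S.card.choose 2 :=
  Sym2.card_image_offDiag S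

theorem Ed_mono {S T : Finset (Fin n)} (h : S ⊆ T) : Ed S ⊆ Ed T := by
  intro e he
  induction e using Sym2.ind with
  | _ x y =>
    rw [mem_Ed] at he ⊢
    exact ⟨h he.1, h he.2.1, he.2.2⟩

theorem mem_star {R : Finset (Fin n)} {z : Fin n} {e : Sym2 (Fin n)} :
    e ∈ star R z ↔ ∃ x ∈ R, s(x, z) = e := by
  simp [star]

@[simp] theorem und_init (f : Fin n × Fin n) : und (.init f) = .init s(f.1, f.2) := rfl
@[simp] theorem und_step (H : Play (Fin n × Fin n)) (e f : Fin n × Fin n) :
    und (.step H e f) = .step (und H) s(e.1, e.2) s(f.1, f.2) := rfl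

end board

end Pool.Agent.Work.MP_947296_co
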