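import Mathlib

set_option autoImplicit false

/-! MP_947296_co: definitions for the T-building game.
A play is recorded at the times just after a move of Maker. -/

namespace Pool.Agent.Work.MP_947296_co

open Finset

/-- A play: Maker's first move, then pairs (Breaker's move, Maker's move). -/
inductive Play (E : Type) where
  | init (f : E) : Play E
  | step (H : Play E) (e f : E) : Play E

namespace Play

variable {E : Type}

/-- Transport of a play along a map of the moves. -/
def map {A B : Type} (g : A → B) : Play A → Play B
  | .init f => .init (g f)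
  | .step H e f => .step (map g H) (g e) (g f)

/-- `Pre H' H`: the play `H'` is an initial part of `H`. -/
inductive Pre : Play E → Play E → Prop
  | refl (H : Play E) : Pre H H
  | step {H' H : Play E} (e f : E) (h : Pre H' H) : Pre H' (.step H e f)

/-- `H` is the first play at which `P` holds (along the initial parts of `H`). -/
def First (P : Play E → Prop) (H : Play E) : Prop :=
  P H ∧ ∀ H', Pre H' H → P H' → H' = H

variable [DecidableEq E]

/-- (Maker's edges, Breaker's edges); the first claimant owns an edge. -/
def mb : Play E → Finset E × Finset E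
  | .init f => ({f}, ∅)
  | .step H e f =>
    (if f ∈ (if e ∈ H.mb.1 then H.mb.2 else insert e H.mb.2) then H.mb.1
      else insert f H.mb.1,
     if e ∈ H.mb.1 then H.mb.2 else insert e H.mb.2)

def M (H : Play E) : Finset E := H.mb.1
def B (H : Play E) : Finset E := H.mb.2
/-- the claimed edges -/
def cl (H : Play E) : Finset E := H.M ∪ H.B

/-- Basic token value of a set `I`: `0` if Breaker owns an edge of it, else
`2^{-number of edges not owned by Maker}`. -/
noncomputable def bv (I : Finset E) (H : Play E) : ℝ := by
  classical
  exact if Disjoint H.B I then (1 / 2 : ℝ) ^ (I \ H.M).card else 0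

/-- The closing condition of an item with edge set `I` and threshold `β`. -/
def Cond (I : Finset E) (β : ℕ) (H : Play E) : Prop :=
  Disjoint H.B I ∧ (I \ H.cl).card ≤ β

/-- The item was closed at some time up to `H`. -/
def Closed (I : Finset E) (β : ℕ) (H : Play E) : Prop :=
  ∃ H', Pre H' H ∧ Cond I β H'

section token

variable {ι : Type} [Fintype ι]

/-- union of a tuple of sets -/
def uni (I : ι → Finset E) : Finset E := univ.biUnion I

open Classical in
/-- the unclaimed edges in the items of the tuple which are not closed -/
noncomputable def op (I : ι → Finset E) (β : ι → ℕ) (H : Play E) : Finset E :=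
  ((univ.filter (fun i => ¬ Closed (I i) (β i) H)).biUnion I) \ H.cl

open Classical in
/-- the edges which Maker claimed while they were open -/
noncomputable def got (I : ι → Finset E) (β : ι → ℕ) : Play E → Finset E
  | .init f => uni I ∩ {f}
  | .step H _ f => got I β H ∪ (op I β H ∩ {f})

/-- Breaker claimed an open edge -/
def dead (I : ι → Finset E) (β : ι → ℕ) : Play E → Prop
  | .init _ => False
  | .step H e _ => dead I β H ∨ e ∈ op I β H

open Classical in
/-- the value of the tuple -/
noncomputable def tv (I : ι → Finset E) (β : ι → ℕ) (H : Play E) : ℝ :=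
  if dead I β H then 0 else (1 / 2 : ℝ) ^ (uni I \ got I β H).card

end token

end Play

open Play

/-- An Erdos-Selfridge potential on plays: a nonnegative functional with a
loss function `loss H x`, the part of the value which depends on the edge `x`. -/
structure Pot (E : Type) where
  val : Play E → ℝ
  loss : Play E → E → ℝ
  val_nonneg : ∀ H, 0 ≤ val H
  loss_nonneg : ∀ H x, 0 ≤ loss H x
  loss_le : ∀ H x, loss H x ≤ val H
  step : ∀ H e f, val (.step H e f) ≤ val H - loss H e + loss H f

section board

variable {n : ℕ}

/-- the edges of the complete graph on `S` -/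
def Ed (S : Finset (Fin n)) : Finset (Sym2 (Fin n)) := S.offDiag.image (fun p => s(p.1, p.2))

/-- the edges between `R` and the vertex `z` -/
def star (R : Finset (Fin n)) (z : Fin n) : Finset (Sym2 (Fin n)) := R.image (fun x => s(x, z))

/-- `W R H`: the number of ways to extend the root `R` by one vertex, weighted. -/
noncomputable def W (R : Finset (Fin n)) (H : Play (Sym2 (Fin n))) : ℝ :=
  ∑ z ∈ univ \ R, bv (star R z) H

/-- `S` is ripe: no edge of Breaker and at most `b` unclaimed edges -/
def Ripe (b : ℕ) (S : Finset (Fin n)) (H : Play (Sym2 (Fin n))) : Prop :=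
  Cond (Ed S) b H

open Classical in
/-- the `k`-sets which were ripe at some time and contain `J` -/
noncomputable def MS (k b : ℕ) (H : Play (Sym2 (Fin n))) (J : Finset (Fin n)) :
    Finset (Finset (Fin n)) :=
  (powersetCard k univ).filter (fun S => J ⊆ S ∧ Closed (Ed S) b H)

/-- the map `c` is injective on `Y` up to `x0` exceptions -/
def NearInj {k : ℕ} (x0 : ℕ) (c : Fin n → Fin k) (Y : Finset (Fin n)) : Prop :=
  ∃ X : Finset (Fin n), X ⊆ Y ∧ X.card ≤ x0 ∧ Set.InjOn c (Y \ X : Finset (Fin n))

open Classical in
/-- the sets of `MS` containing the root `R` on which the roles `c` are nearly injective -/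
noncomputable def QC (k b x0 : ℕ) (c : Fin n → Fin k) (R : Finset (Fin n))
    (H : Play (Sym2 (Fin n))) : Finset (Finset (Fin n)) :=
  (MS k b H R).filter (fun S => NearInj x0 c (S \ R))

end board

section roots

variable {n : ℕ}

/-- status of an edge: unclaimed for ever, or (owner is Maker, time of the claim) -/
abbrev St (N : ℕ) := Option (Bool × Fin N)

/-- weight of an edge at time `κ` -/
noncomputable def sw {N : ℕ} (s : St N) (κ : ℕ) : ℝ :=
  match s with
  | none => 1 / 2
  | some (true, s) => if (s : ℕ) ≤ κ then 1 else 1 / 2
  | some (false, s) => if (s : ℕ) ≤ κ then 0 else 1 / 2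

/-- weight of the vertex `z` at time `κ` for the root history `h` -/
noncomputable def om {N : ℕ} {R : Finset (Fin n)} (h : ↥R → Fin n → St N) (κ : ℕ) (z : Fin n) : ℝ :=
  ∏ x : ↥R, sw (h x z) κ

/-- the time of the claim of the root edge `o` -/
def kap {N : ℕ} {R : Finset (Fin n)} (h : ↥R → Fin n → St N) : Option (↥R × Fin n) → ℕ
  | none => 0
  | some (x, z) =>
    match h x z with
    | none => 0
    | some (_, s) => (s : ℕ)

/-- the root history satisfies the cap at all times -/
def Capped {N : ℕ} {R : Finset (Fin n)} (h : ↥R → Fin n → St N) (cap : ℝ) : Prop :=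
  ∀ κ : ℕ, ∑ z ∈ univ \ R, om h κ z ≤ cap

/-- the item data at the root `R` -/
abbrev DC {n : ℕ} (b : ℕ) (R : Finset (Fin n)) := Finset (Fin n) × Option (↥R × Fin n) × Fin (b + 1)

/-- validity of an item -/
def ValidC {k : ℕ} (b x0 : ℕ) (c : Fin n → Fin k) (R : Finset (Fin n)) (d : DC b R) : Prop :=
  R ⊆ d.1 ∧ d.1.card = k ∧ NearInj x0 c (d.1 \ R) ∧
    ∀ p : ↥R × Fin n, d.2.1 = some p → p.2 ∈ d.1 \ R

open Classical in
/-- the weight of an item -/
noncomputable def gC {k N : ℕ} (b x0 : ℕ) (cap : ℝ) (c : Fin n → Fin k) (R : Finset (Fin n))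
    (h : ↥R → Fin n → St N) (d : DC b R) : ℝ :=
  if Capped h cap ∧ ValidC b x0 c R d then ∏ z ∈ d.1 \ R, om h (kap h d.2.1) z else 0

end roots

section oriented

variable {n : ℕ}

/-- forget the orientations -/
def und (H : Play (Fin n × Fin n)) : Play (Sym2 (Fin n)) := H.map (fun m => s(m.1, m.2))

open Classical in
/-- the arcs of Maker -/
noncomputable def arcs : Play (Fin n × Fin n) → Finset (Fin n × Fin n)
  | .init f => {f}
  | .step H e f =>
    if s(f.1, f.2) ∈ insert s(e.1, e.2) (und H).cl then arcs H else insert f (arcs H)

open Classical in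
/-- the `k`-sets which were ripe at some time and carried at their first ripe time a
placement of `T` consistent with the arcs of Maker -/
noncomputable def QT {k : ℕ} (T : Fin k → Fin k → Prop) (b : ℕ) (H : Play (Fin n × Fin n)) :
    Finset (Finset (Fin n)) :=
  univ.filter (fun S => ∃ H', Pre H' H ∧ First (fun K => Ripe b S (und K)) H' ∧
    ∃ f : Fin k → Fin n, Function.Injective f ∧ univ.image f = S ∧
      ∀ i j, T i j → (f j, f i) ∉ arcs H')

/-- `br` was followed by Breaker -/
def Follow {μ : Type} (br : Play μ → μ) : Play μ → Prop
  | .init _ => True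
  | .step H e _ => Follow br H ∧ e = br H

open Classical in
/-- the role of `z`, read off from the arcs between `z` and the frame `g` of the block `bl` -/
noncomputable def role {k w : ℕ} [NeZero k] (T : Fin k → Fin k → Prop) (bl : Fin w → Fin k)
    (A : Finset (Fin n × Fin n)) (g : Fin w → Fin n) (z : Fin n) : Fin k :=
  if h : ∃ v : Fin k, v ∉ Set.range bl ∧ ∀ j, ((g j, z) ∈ A ↔ T (bl j) v) then h.choose else 0

/-- the blocks of `bl` are disjoint and each separates the other roles -/
def Separating {k w t : ℕ} (T : Fin k → Fin k → Prop) (bl : Fin t → Fin w → Fin k) : Prop :=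
  (∀ i j i' j', bl i j = bl i' j' → i = i' ∧ j = j') ∧
  ∀ i u v, u ∉ Set.range (bl i) → v ∉ Set.range (bl i) → (∀ j, (T (bl i j) u ↔ T (bl i j) v)) →
    u = v

end oriented

end Pool.Agent.Work.MP_947296_co
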