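import Pool.Agent.Work.MP_947296_co.Basic

set_option autoImplicit false

/-! MP_947296_co: the statements to be proved (one file each). -/

namespace Pool.Agent.Work.MP_947296_co

open Finset Play

/-! ## Tokens -/

/-- [T1] one step of the value of a tuple -/
def TokStep : Prop :=
  ∀ (E : Type) [DecidableEq E] (ι : Type) [Fintype ι] (I : ι → Finset E) (β : ι → ℕ)
    (H : Play E) (e f : E),
    tv I β (.step H e f) ≤ tv I β H - (if e ∈ op I β H then tv I β H else 0)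
      + (if f ∈ op I β H then tv I β H else 0)

/-- [T2] the initial value of a tuple -/
def TokInit : Prop :=
  ∀ (E : Type) [DecidableEq E] (ι : Type) [Fintype ι] (I : ι → Finset E) (β : ι → ℕ) (f : E),
    tv I β (.init f) ≤ 2 * (1 / 2 : ℝ) ^ (uni I).card

/-- [T3] the value of a tuple all whose items are closed -/
def TokClosed : Prop :=
  ∀ (E : Type) [DecidableEq E] (ι : Type) [Fintype ι] (I : ι → Finset E) (β : ι → ℕ)
    (H : Play E), (∀ i, Closed (I i) (β i) H) → (1 / 2 : ℝ) ^ (∑ i, β i) ≤ tv I β H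

/-- the overlap of a tuple of items -/
def ov {E D : Type} [DecidableEq E] {p : ℕ} (I : D → Finset E) (t : Fin p → D) : ℕ :=
  ∑ i, ∑ j ∈ univ.filter (· < i), (I (t i) ∩ I (t j)).card

/-- [T4] the static sum over the allowed tuples -/
def TupSum : Prop :=
  ∀ (E : Type) [DecidableEq E] (D : Type) [Fintype D] (I : D → Finset E) (g : D → ℝ) (p Lam : ℕ),
    (∀ d, 0 ≤ g d) →
    ∑ t ∈ univ.filter (fun t : Fin p → D => ov I t ≤ Lam),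
      (∏ i, g (t i)) * (1 / 2 : ℝ) ^ (uni (fun i => I (t i))).card
      ≤ 2 ^ Lam * (∑ d, g d * (1 / 2 : ℝ) ^ (I d).card) ^ p

open Classical in
/-- [T5] at least one half of the tuples of a spread family are allowed -/
def TupMany : Prop :=
  ∀ (E : Type) [DecidableEq E] (D : Type) [Fintype D] (I : D → Finset E) (p Lam m : ℕ)
    (σ : ℝ) (Q : Finset D),
    (∀ d ∈ Q, (I d).card ≤ m) →
    (∀ e, ((Q.filter (fun d => e ∈ I d)).card : ℝ) ≤ σ * Q.card) →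
    (p : ℝ) ^ 2 * σ * m ≤ Lam →
    (Q.card : ℝ) ^ p / 2 ≤
      ((univ.filter (fun t : Fin p → D => (∀ i, t i ∈ Q) ∧ ov I t ≤ Lam)).card : ℝ)

/-- [T6] the potential of a family of items -/
def FamPot : Prop :=
  ∀ (E : Type) [DecidableEq E] (D : Type) [Fintype D] [DecidableEq D] (I : D → Finset E)
    (β : D → ℕ) (g : D → ℝ) (p Lam : ℕ), (∀ d, 0 ≤ g d) →
    ∃ Φ : Pot E,
      (∀ f, Φ.val (.init f) ≤ 2 * 2 ^ Lam * (∑ d, g d * (1 / 2 : ℝ) ^ (I d).card) ^ p) ∧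
      ∀ (H : Play E) (Q : Finset D) (γ σ : ℝ) (m : ℕ), 0 ≤ γ →
        (∀ d ∈ Q, Closed (I d) (β d) H) →
        (∀ d ∈ Q, γ ≤ g d * (1 / 2 : ℝ) ^ β d) →
        (∀ d ∈ Q, (I d).card ≤ m) →
        (∀ e, ((Q.filter (fun d => e ∈ I d)).card : ℝ) ≤ σ * Q.card) →
        (p : ℝ) ^ 2 * σ * m ≤ Lam →
        γ ^ p * (Q.card : ℝ) ^ p / 2 ≤ Φ.val H

/-! ## Family A: caps at the roots -/

/-- [A1] one step of a basic token -/
def BvStep : Prop :=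
  ∀ (E : Type) [DecidableEq E] (I : Finset E) (H : Play E) (e f : E),
    bv I (.step H e f) ≤ bv I H - (if e ∈ I \ H.cl then bv I H else 0)
      + (if f ∈ I \ H.cl then bv I H else 0)

/-- [A2] the generating function potential of a root -/
def RootPot : Prop :=
  ∀ (n r : ℕ) (R : Finset (Fin n)) (lam : ℝ), 0 ≤ lam → R.card = r →
    ∃ Φ : Pot (Sym2 (Fin n)),
      (∀ f, Φ.val (.init f) ≤ 2 * Real.exp (lam * n * (1 / 2 : ℝ) ^ r)) ∧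
      ∀ H, (1 + lam) ^ (W R H) ≤ Φ.val H

/-- [A3] the caps at all roots of size `r` -/
def CapPot : Prop :=
  ∀ (n r : ℕ) (lam cap eps : ℝ), 0 < lam →
    (n.choose r : ℝ) * (2 * Real.exp (lam * n * (1 / 2 : ℝ) ^ r)) ≤ eps * (1 + lam) ^ cap →
    ∃ Ψ : Pot (Sym2 (Fin n)), (∀ f, Ψ.val (.init f) ≤ eps) ∧
      ∀ H, Ψ.val H ≤ 1 → ∀ R : Finset (Fin n), R.card = r → W R H ≤ cap

/-! ## Family B: the unoriented chain -/

/-- [B1] one level of the chain -/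
def LevelB : Prop :=
  ∀ (n k b j p Lam : ℕ) (thr eps : ℝ), 1 ≤ p → j ≤ k → 0 < thr →
    (n.choose j : ℝ) * (2 * (2 * 2 ^ Lam *
      ((b + 1) * (n.choose (k - j)) * (1 / 2 : ℝ) ^ (k.choose 2 - j.choose 2)) ^ p) / thr ^ p)
        ≤ eps →
    ∃ Ψ : Pot (Sym2 (Fin n)), (∀ f, Ψ.val (.init f) ≤ eps) ∧
      ∀ H, Ψ.val H ≤ 1 → ∀ J : Finset (Fin n), J.card = j → ∀ θ : ℝ,
        (∀ x, x ∉ J → ((MS k b H (insert x J)).card : ℝ) * (1 / 2 : ℝ) ^ b ≤ θ) →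
        (p : ℝ) ^ 2 * (k.choose 2) * θ ≤ Lam * thr →
        ((MS k b H J).card : ℝ) * (1 / 2 : ℝ) ^ b ≤ thr

/-- [B2] the chain -/
def ChainB : Prop :=
  ∀ (n k b j0 j1 p Lam : ℕ) (P eps : ℝ) (thr : ℕ → ℝ), 1 ≤ p → j0 ≤ j1 → j1 ≤ k →
    (∀ j, 0 < thr j) →
    (∀ j, j0 ≤ j → j < j1 → thr (j + 1) * P ≤ thr j) →
    (n.choose (k - j1) : ℝ) * (1 / 2 : ℝ) ^ b ≤ thr j1 →
    (p : ℝ) ^ 2 * (k.choose 2) ≤ Lam * P → 0 < P →
    (∑ j ∈ Ico j0 j1, (n.choose j : ℝ) * (2 * (2 * 2 ^ Lam *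
      ((b + 1) * (n.choose (k - j)) * (1 / 2 : ℝ) ^ (k.choose 2 - j.choose 2)) ^ p) /
        thr j ^ p)) ≤ eps →
    ∃ Ψ : Pot (Sym2 (Fin n)), (∀ f, Ψ.val (.init f) ≤ eps) ∧
      ∀ H, Ψ.val H ≤ 1 → ∀ J : Finset (Fin n), J.card = j0 →
        ((MS k b H J).card : ℝ) * (1 / 2 : ℝ) ^ b ≤ thr j0

/-! ## Family C: role maps and root histories -/

open Classical in
/-- [C1] AM-GM for the transversals of the colour classes -/
def Transversal : Prop :=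
  ∀ (n k j : ℕ) (V : Finset (Fin n)) (c : Fin n → Fin k) (ω : Fin n → ℝ) (w : ℝ), j ≤ k → 1 ≤ k →
    (∀ z, 0 ≤ ω z) → ∑ z ∈ V, ω z ≤ w → 0 < w →
    ∑ Y ∈ (powersetCard j V).filter (fun Y => Set.InjOn c (Y : Set (Fin n))), ∏ z ∈ Y, ω z
      ≤ 3 * (k : ℝ) ^ (k - j) * (w / k) ^ j

open Classical in
/-- [C2] the same for nearly injective sets -/
def NearTransversal : Prop :=
  ∀ (n k K x0 : ℕ) (V : Finset (Fin n)) (c : Fin n → Fin k) (ω : Fin n → ℝ) (w : ℝ),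
    K ≤ k → 1 ≤ k → (∀ z, 0 ≤ ω z) → ∑ z ∈ V, ω z ≤ w → 0 < w →
    ∑ Y ∈ (powersetCard K V).filter (fun Y => NearInj x0 c Y), ∏ z ∈ Y, ω z
      ≤ (x0 + 1) * (3 * (k : ℝ) ^ (k - K + 2 * x0)) * (w / k) ^ K

/-- the static bound at a root of size `r` -/
noncomputable def stat (n k b x0 r : ℕ) (cap : ℝ) : ℝ :=
  (b + 1) * (1 / 2 : ℝ) ^ ((k - r).choose 2) *
    ((x0 + 1) * (3 * (k : ℝ) ^ (r + 2 * x0)) * (cap / k) ^ (k - r)) *
      (1 + r * n * (k : ℝ) ^ 2 / cap)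

/-- [C3] the static sum of the items at a root -/
def ItemSum : Prop :=
  ∀ (n k b x0 r N : ℕ) (cap : ℝ) (c : Fin n → Fin k) (R : Finset (Fin n))
    (h : ↥R → Fin n → St N), R.card = r → r < k → 0 < cap →
    ∑ d : DC b R, gC b x0 cap c R h d * (1 / 2 : ℝ) ^ (Ed (d.1 \ R)).card ≤ stat n k b x0 r cap

/-- the properties of the time stamps of a play -/
def IsStamp {E : Type} [DecidableEq E] {N : ℕ} (H : Play E) (st : E → St N) : Prop :=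
  (∀ e, st e = none ↔ e ∉ H.cl) ∧
  (∀ e o s, st e = some (o, s) → (o = true ↔ e ∈ H.M)) ∧
  (∀ e o s, st e = some (o, s) → 1 ≤ (s : ℕ)) ∧
  (∀ H', Pre H' H → ∀ e o s, st e = some (o, s) → (e ∈ H'.cl ↔ (s : ℕ) ≤ H'.cl.card)) ∧
  (∀ κ : ℕ, 1 ≤ κ → ∃ H', Pre H' H ∧
    ∀ e o s, st e = some (o, s) → (e ∈ H'.cl ↔ (s : ℕ) ≤ κ))

/-- [C4] time stamps exist -/
def Stamps : Prop :=
  ∀ (E : Type) [DecidableEq E] [Fintype E] (H : Play E),
    ∃ st : E → St (Fintype.card E + 1), IsStamp H st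

/-- [C5] the weight of a vertex is its basic token at the time of the cut -/
def OmEq : Prop :=
  ∀ (n N : ℕ) (H H' : Play (Sym2 (Fin n))) (st : Sym2 (Fin n) → St N) (R : Finset (Fin n))
    (z : Fin n) (κ : ℕ), IsStamp H st → Pre H' H →
    (∀ x ∈ R, ∀ o s, st s(x, z) = some (o, s) → (s(x, z) ∈ H'.cl ↔ (s : ℕ) ≤ κ)) → z ∉ R →
    om (fun (x : ↥R) z => st s((x : Fin n), z)) κ z = bv (star R z) H'

/-- [C6] the actual root history satisfies the caps -/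
def CappedAct : Prop :=
  ∀ (n N r : ℕ) (H : Play (Sym2 (Fin n))) (st : Sym2 (Fin n) → St N) (R : Finset (Fin n))
    (cap : ℝ), IsStamp H st → R.card = r → (n : ℝ) * (1 / 2 : ℝ) ^ r ≤ cap →
    (∀ H', Pre H' H → W R H' ≤ cap) →
    Capped (fun (x : ↥R) z => st s((x : Fin n), z)) cap

/-- [C7] a set which was ripe gives a closed item of large weight -/
def ItemClosed : Prop :=
  ∀ (n N k b x0 : ℕ) (H : Play (Sym2 (Fin n))) (st : Sym2 (Fin n) → St N) (R : Finset (Fin n))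
    (c : Fin n → Fin k), IsStamp H st → ∀ S ∈ QC k b x0 c R H,
    ∃ d : DC b R, d.1 = S ∧ ValidC b x0 c R d ∧ Closed (Ed (d.1 \ R)) (d.2.2 : ℕ) H ∧
      (1 / 2 : ℝ) ^ b ≤ (∏ z ∈ d.1 \ R, om (fun (x : ↥R) z => st s((x : Fin n), z))
        (kap (fun (x : ↥R) z => st s((x : Fin n), z)) d.2.1) z) * (1 / 2 : ℝ) ^ (d.2.2 : ℕ)

open Classical in
/-- [C8] one level of the chain with roles -/
def LevelC : Prop :=
  ∀ (n k b x0 r p Lam : ℕ) (cap thr eps S0 : ℝ), 1 ≤ p → r < k → 0 < cap → 0 < thr →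
    (n : ℝ) * (1 / 2 : ℝ) ^ r ≤ cap → stat n k b x0 r cap ≤ S0 →
    (n.choose r : ℝ) * ((k : ℝ) ^ n * (2 * (Fintype.card (Sym2 (Fin n)) + 1) + 1 : ℝ) ^ (r * n)) *
      (2 * (2 * 2 ^ Lam * S0 ^ p) / thr ^ p) ≤ eps →
    ∃ Ψ : Pot (Sym2 (Fin n)), (∀ f, Ψ.val (.init f) ≤ eps) ∧
      ∀ H, (∀ H', Pre H' H → ∀ R : Finset (Fin n), R.card = r → W R H' ≤ cap) →
        Ψ.val H ≤ 1 → ∀ (c : Fin n → Fin k) (R : Finset (Fin n)), R.card = r → ∀ θ : ℝ,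
        (∀ x y, x ∉ R → y ∉ R → x ≠ y →
          (((QC k b x0 c R H).filter (fun S => x ∈ S ∧ y ∈ S)).card : ℝ) * (1 / 2 : ℝ) ^ b ≤ θ) →
        (p : ℝ) ^ 2 * (k.choose 2) * θ ≤ Lam * thr →
        ((QC k b x0 c R H).card : ℝ) * (1 / 2 : ℝ) ^ b ≤ thr

/-! ## Frames -/

/-- `T` is a tournament -/
def IsTour {k : ℕ} (T : Fin k → Fin k → Prop) : Prop :=
  (∀ i, ¬ T i i) ∧ ∀ i j, i ≠ j → (T i j ↔ ¬ T j i)

/-- [F1] a tournament all whose blocks separate -/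
def TourExists : Prop :=
  ∀ k w t : ℕ, w * t ≤ k → t * k ^ 2 ≤ 2 ^ w → 1 ≤ k →
    ∃ (T : Fin k → Fin k → Prop) (bl : Fin t → Fin w → Fin k), IsTour T ∧ Separating T bl

/-- [F2] the arcs of Maker -/
def ArcsFacts : Prop :=
  ∀ (n : ℕ) (H : Play (Fin n × Fin n)),
    (∀ x y, (x, y) ∈ arcs H → s(x, y) ∈ (und H).M) ∧
    (∀ x y, s(x, y) ∈ (und H).M → (x, y) ∈ arcs H ∨ (y, x) ∈ arcs H) ∧
    (∀ x y, (x, y) ∈ arcs H → (y, x) ∈ arcs H → x = y) ∧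
    (∀ H', Pre H' H → arcs H' ⊆ arcs H) ∧
    (∀ H', Pre H' H → ∀ x y, s(x, y) ∈ (und H').cl → (x, y) ∈ arcs H → (x, y) ∈ arcs H')

/-- [F3] some block of roles has few unclaimed edges -/
def BlockFew : Prop :=
  ∀ (n k w t b x0 : ℕ) (bl : Fin t → Fin w → Fin k) (f : Fin k → Fin n)
    (Un : Finset (Sym2 (Fin n))), 1 ≤ t → 2 * b ≤ x0 * t → Function.Injective f →
    (∀ i j i' j', bl i j = bl i' j' → i = i' ∧ j = j') → Un.card ≤ b →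
    ∃ i : Fin t, ((univ.image f \ univ.image (fun j => f (bl i j))).filter
      (fun z => ∃ j, s(f (bl i j), z) ∈ Un)).card ≤ x0

/-- [F4] the frame of a set of `QT` -/
def Frame : Prop :=
  ∀ (n k w t b x0 : ℕ) [NeZero k] (T : Fin k → Fin k → Prop) (bl : Fin t → Fin w → Fin k)
    (H : Play (Fin n × Fin n)), IsTour T → Separating T bl → 1 ≤ t → 2 * b ≤ x0 * t →
    ∀ S ∈ QT T b H, ∃ (i : Fin t) (g : Fin w → Fin n), Function.Injective g ∧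
      S ∈ QC k b x0 (role T (bl i) (arcs H) g) (univ.image g) (und H)

open Classical in
/-- [F5] the number of sets of `QT` -/
def FrameCount : Prop :=
  ∀ (n k w t b x0 : ℕ) [NeZero k] (T : Fin k → Fin k → Prop) (bl : Fin t → Fin w → Fin k)
    (H : Play (Fin n × Fin n)) (thr : ℝ), IsTour T → Separating T bl → 1 ≤ t → 2 * b ≤ x0 * t →
    0 ≤ thr →
    (∀ (c : Fin n → Fin k) (R : Finset (Fin n)), R.card = w →
      ((QC k b x0 c R (und H)).card : ℝ) * (1 / 2 : ℝ) ^ b ≤ thr) →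
    ((QT T b H).card : ℝ) * (1 / 2 : ℝ) ^ b ≤ t * (n : ℝ) ^ w * thr

/-! ## The last stage and Breaker's strategy -/

/-- [E1] the Erdos-Selfridge strategy with entries -/
def ESStage : Prop :=
  ∀ (μ E X : Type) [Fintype μ] [Nonempty μ] [DecidableEq E] [DecidableEq X] (ed : μ → E)
    (F : X → Finset E) (Q : Play μ → Finset X) (b : ℕ) (Ψ : Pot μ),
    (∀ f, Ψ.val (.init f) ≤ 1 / 8) →
    (∀ f, Q (.init f) = ∅) →
    (∀ H e f, Q H ⊆ Q (.step H e f)) →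
    (∀ H e f, ∀ S ∈ Q (.step H e f), S ∉ Q H → (F S \ ((Play.step H e f).map ed).cl).card = b) →
    (∀ H, (∀ H', Pre H' H → Ψ.val H' ≤ 1) → ((Q H).card : ℝ) * (1 / 2 : ℝ) ^ b ≤ 1 / 4) →
    ∃ br : Play μ → μ, ∀ H, Follow br H → ∀ S ∈ Q H, ¬ (F S ⊆ (H.map ed).M)

/-- [E2] unrolling the two strategies -/
def Unroll : Prop :=
  ∀ (μ : Type) (σ : (t : ℕ) → (Fin t → μ) → μ) (br : Play μ → μ),
    ∃ (b : ℕ → μ) (Hs : ℕ → Play μ), Hs 0 = .init (σ 0 (fun s : Fin 0 => b s.val)) ∧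
      ∀ t, Hs (t + 1) = .step (Hs t) (b t) (σ (t + 1) (fun s : Fin (t + 1) => b s.val)) ∧
        b t = br (Hs t)

/-- [E3] the sets of `QT` enter with exactly `b` unclaimed edges -/
def EnterQT : Prop :=
  ∀ (n k b : ℕ) (T : Fin k → Fin k → Prop), b + 1 < k.choose 2 →
    (∀ f, QT (n := n) T b (.init f) = ∅) ∧
    (∀ (H : Play (Fin n × Fin n)) e f, QT T b H ⊆ QT T b (.step H e f)) ∧
    (∀ (H : Play (Fin n × Fin n)) e f, ∀ S ∈ QT T b (.step H e f), S ∉ QT T b H →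
      (Ed S \ (und (.step H e f)).cl).card = b)

/-- [E4] a copy of `T` built by Maker is a fully claimed set of `QT` -/
def CopyQT : Prop :=
  ∀ (n k b : ℕ) (T : Fin k → Fin k → Prop)
    (σ : (t : ℕ) → (Fin t → Fin n × Fin n) → Fin n × Fin n) (bb : ℕ → Fin n × Fin n)
    (Hs : ℕ → Play (Fin n × Fin n)) (f : Fin k → Fin n), IsTour T →
    Hs 0 = .init (σ 0 (fun s : Fin 0 => bb s.val)) →
    (∀ t, Hs (t + 1) = .step (Hs t) (bb t) (σ (t + 1) (fun s : Fin (t + 1) => bb s.val))) →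
    Function.Injective f →
    (∀ i j : Fin k, T i j → ∃ t : ℕ, σ t (fun s : Fin t => bb s.val) = (f i, f j) ∧
      ∀ s : ℕ, s < t → (bb s ≠ (f i, f j) ∧ bb s ≠ (f j, f i) ∧
        σ s (fun r : Fin s => bb r.val) ≠ (f i, f j) ∧
        σ s (fun r : Fin s => bb r.val) ≠ (f j, f i))) →
    ∃ t, univ.image f ∈ QT T b (Hs t) ∧ Ed (univ.image f) ⊆ (und (Hs t)).M

/-! ## Maker's side -/

section maker

variable {E X : Type} [DecidableEq E]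

/-- value of a set at the position `(M, B)` -/
noncomputable def pv (M B : Finset E) (I : Finset E) : ℝ :=
  if Disjoint B I then (1 / 2 : ℝ) ^ (I \ M).card else 0

/-- Maker's functional: first moment minus second moment -/
noncomputable def Lf [Fintype X] (F : X → Finset E) (Pr : Finset (X × X)) (M B : Finset E) : ℝ :=
  ∑ S : X, pv M B (F S) - ∑ q ∈ Pr, pv M B (F q.1 ∪ F q.2)

end maker

/-- [M1] one round of Maker's strategy -/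
def MakerRound : Prop :=
  ∀ (E X : Type) [DecidableEq E] [Fintype X] [DecidableEq X] (F : X → Finset E)
    (Pr : Finset (X × X)) (M B : Finset E) (x y : E),
    (∀ S S', S ≠ S' → 2 ≤ (F S ∩ F S').card → (S, S') ∈ Pr) → Disjoint M B →
    x ∉ M ∪ B → y ∉ M ∪ B → x ≠ y →
    (Lf F Pr (insert y M) B ≤ Lf F Pr (insert x M) B) →
    Lf F Pr M B - 1 / 4 ≤ Lf F Pr (insert x M) (insert y B)

/-- [M2] Maker's criterion -/
def MakerAbs : Prop :=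
  ∀ (E X : Type) [DecidableEq E] [Fintype E] [Nonempty E] [Fintype X] [DecidableEq X]
    (F : X → Finset E) (Pr : Finset (X × X)),
    (∀ S S', S ≠ S' → 2 ≤ (F S ∩ F S').card → (S, S') ∈ Pr) →
    (Fintype.card E : ℝ) / 8 < Lf F Pr ∅ ∅ →
    ∃ σ : (t : ℕ) → (Fin t → E) → E, ∀ b : ℕ → E, ∃ S : X, ∀ e ∈ F S,
      ∃ t, σ t (fun s : Fin t => b s.val) = e ∧ ∀ s, s < t → b s ≠ e

/-- [M3] Maker's criterion for the clique game -/
def MakerClique : Prop :=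
  ∀ n k : ℕ, 1 ≤ n → k ≤ n →
    (n : ℝ) ^ 2 ≤ (n.choose k : ℝ) * (1 / 2 : ℝ) ^ (k.choose 2) →
    ∑ s ∈ Ico 3 k, ((k.choose s : ℝ) * ((n - k).choose (k - s)) *
      (1 / 2 : ℝ) ^ (k.choose 2 - s.choose 2)) ≤ 1 / 2 →
    ∃ σ : (t : ℕ) → (Fin t → Fin n × Fin n) → Fin n × Fin n,
      ∀ b : ℕ → Fin n × Fin n,
      ∃ f : Fin k → Fin n, Function.Injective f ∧ ∀ i j : Fin k, i ≠ j →
        ∃ t : ℕ,
          (σ t (fun s : Fin t => b s.val) = (f i, f j) ∨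
            σ t (fun s : Fin t => b s.val) = (f j, f i)) ∧
          ∀ s : ℕ, s < t → (b s ≠ (f i, f j) ∧ b s ≠ (f j, f i))

/-! ## Parameters and numerical facts -/

def pn (u : ℕ) : ℕ := 2 ^ (20 * 2 ^ u)
def pk (u : ℕ) : ℕ := 40 * 2 ^ u - 2 * u - 9
def pw (u : ℕ) : ℕ := 3 * u + 18
def pt (u : ℕ) : ℕ := pk u / pw u
def pb (u : ℕ) : ℕ := 400 * u * 2 ^ u
def px (u : ℕ) : ℕ := 80 * u * pw u
def pp (u : ℕ) : ℕ := pn u * 4 ^ u

noncomputable def pcap (u r : ℕ) : ℝ := (1 + 1 / 128) * pn u * (1 / 2 : ℝ) ^ r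

/-- thresholds of family B -/
noncomputable def thrB (u j : ℕ) : ℝ :=
  2 ^ (2 ^ u) * ((pn u : ℝ) ^ (pk u - (pw u + 6)) / (pk u - (pw u + 6)).factorial *
    (1 / 2 : ℝ) ^ ((pk u).choose 2 - (pw u + 6).choose 2)) *
      (1 / 2 : ℝ) ^ (3 * u * (j - (pw u + 6)))

/-- the static size at a root of size `r` -/
noncomputable def Cc (u r : ℕ) : ℝ :=
  ((pn u : ℝ) * (1 / 2 : ℝ) ^ r / pk u) ^ (pk u - r) * (1 / 2 : ℝ) ^ ((pk u - r).choose 2)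

/-- thresholds of family C -/
noncomputable def thrC (u r l : ℕ) : ℝ := 2 ^ (l * 2 ^ u) * Cc u r

/-- [N0] easy facts about the parameters -/
def NumBasic : Prop := ∀ᶠ u : ℕ in Filter.atTop,
  30 ≤ u ∧ pw u + 6 + 10 * u + 2 ≤ pk u ∧ pb u + 1 < (pk u).choose 2 ∧ pk u ≤ pn u ∧
  1 ≤ pt u ∧ pw u * pt u ≤ pk u ∧ pt u * pk u ^ 2 ≤ 2 ^ pw u ∧ 2 * pb u ≤ px u * pt u ∧
  20 * 2 ^ u ≤ pk u ∧ pk u ≤ 40 * 2 ^ u

/-- [NA] -/
def NumA : Prop := ∀ᶠ u : ℕ in Filter.atTop, ∀ r ≤ pw u + 4,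
  ((pn u).choose r : ℝ) * (2 * Real.exp (1 / 128 * pn u * (1 / 2 : ℝ) ^ r)) ≤
    1 / 64 * (1 + 1 / 128 : ℝ) ^ (pcap u r)

/-- [NB1] the trivial start of the chain B -/
def NumB1 : Prop := ∀ᶠ u : ℕ in Filter.atTop,
  ((pn u).choose (10 * u) : ℝ) * (1 / 2 : ℝ) ^ (pb u) ≤ thrB u (pk u - 10 * u)

/-- [NB2] -/
def NumB2 : Prop := ∀ᶠ u : ℕ in Filter.atTop,
  ((100 * pk u : ℕ) : ℝ) ^ 2 * ((pk u).choose 2) ≤ ((50 * pk u * 2 ^ u : ℕ) : ℝ) * 2 ^ (3 * u)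

/-- [NB3] the levels of the chain B: each static size is below its threshold -/
def NumB3 : Prop := ∀ᶠ u : ℕ in Filter.atTop, ∀ j ∈ Ico (pw u + 6) (pk u - 10 * u),
  2 ^ (2 ^ u) * (((pn u).choose (pk u - j) : ℝ) * (1 / 2 : ℝ) ^ ((pk u).choose 2 - j.choose 2)) ≤
    thrB u j

/-- [NB4] -/
def NumB4 : Prop := ∀ᶠ u : ℕ in Filter.atTop,
  ∑ j ∈ Ico (pw u + 6) (pk u - 10 * u), ((pn u).choose j : ℝ) *
    (2 * (2 * 2 ^ (50 * pk u * 2 ^ u) * (((pb u : ℝ) + 1) * ((pn u).choose (pk u - j)) *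
      (1 / 2 : ℝ) ^ ((pk u).choose 2 - j.choose 2)) ^ (100 * pk u)) /
        thrB u j ^ (100 * pk u)) ≤ 1 / 64

/-- [NC1] the static bound -/
def NumC1 : Prop := ∀ᶠ u : ℕ in Filter.atTop, ∀ r ≤ pw u + 4,
  stat (pn u) (pk u) (pb u) (px u) r (pcap u r) ≤ 2 ^ (2 ^ u) * Cc u r

/-- [NC2] the number of role maps and root histories -/
def NumC2 : Prop := ∀ᶠ u : ℕ in Filter.atTop, ∀ r ≤ pw u + 4, ∀ l : ℕ, 3 ≤ l →
  ((pn u).choose r : ℝ) * ((pk u : ℝ) ^ pn u *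
    (2 * (Fintype.card (Sym2 (Fin (pn u))) + 1) + 1 : ℝ) ^ (r * pn u)) *
      (2 * (2 * 2 ^ ((l - 3) * 2 ^ u * pp u) * (2 ^ (2 ^ u) * Cc u r) ^ pp u) /
        thrC u r l ^ pp u) ≤ 1 / 64

/-- [NC3] the steps of the chain C -/
def NumC3 : Prop := ∀ᶠ u : ℕ in Filter.atTop, ∀ r ≤ pw u + 2, ∀ l : ℕ, 5 ≤ l →
  (pp u : ℝ) ^ 2 * ((pk u).choose 2) * thrC u (r + 2) (l + 18) ≤
    (((l - 3) * 2 ^ u * pp u : ℕ) : ℝ) * thrC u r l

/-- [NC4] the base of the chain C -/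
def NumC4 : Prop := ∀ᶠ u : ℕ in Filter.atTop,
  (pp u : ℝ) ^ 2 * ((pk u).choose 2) * thrB u (pw u + 6) ≤
    (((41 - 3) * 2 ^ u * pp u : ℕ) : ℝ) * thrC u (pw u + 4) 41

/-- [NF] the number of frames -/
def NumF : Prop := ∀ᶠ u : ℕ in Filter.atTop,
  (pt u : ℝ) * (pn u : ℝ) ^ pw u * thrC u (pw u) 5 ≤ 1 / 4

/-- [NM1] -/
def NumM1 : Prop := ∀ᶠ u : ℕ in Filter.atTop,
  (pn u : ℝ) ^ 2 ≤ ((pn u).choose (pk u) : ℝ) * (1 / 2 : ℝ) ^ ((pk u).choose 2)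

/-- [NM2] -/
def NumM2 : Prop := ∀ᶠ u : ℕ in Filter.atTop,
  ∑ s ∈ Ico 3 (pk u), (((pk u).choose s : ℝ) * ((pn u - pk u).choose (pk u - s)) *
    (1 / 2 : ℝ) ^ ((pk u).choose 2 - s.choose 2)) ≤ 1 / 2

/-- [CORE] the total potential of Breaker -/
def Core : Prop := ∀ᶠ u : ℕ in Filter.atTop,
  ∃ Ψ : Pot (Sym2 (Fin (pn u))), (∀ f, Ψ.val (.init f) ≤ 1 / 8) ∧
    ∀ H, (∀ H', Pre H' H → Ψ.val H' ≤ 1) →
      ∀ (c : Fin (pn u) → Fin (pk u)) (R : Finset (Fin (pn u))), R.card = pw u →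
        ((QC (pk u) (pb u) (px u) c R H).card : ℝ) * (1 / 2 : ℝ) ^ (pb u) ≤ thrC u (pw u) 5

end Pool.Agent.Work.MP_947296_co
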